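import Pool.Agent.W_448lad_h84.Defs

set_option autoImplicit false

namespace Pool.Agent.GaussPoset

open Finset Polynomial

universe u

variable {P : Type u} [Fintype P] [PartialOrder P] [DecidableEq P] {r : ℕ}

/-- Number of elements of level j+1 with two upper covers. PROOF: `count_two` and `count_eq`
(bb P 0 = (lv P 0).card, bb P j = (lv P j).card). -/
theorem card_up2 (H : Gr P r) {j : ℕ} (hj : j ≤ r) :
    ((lv P (j + 1)).filter (fun z => up j z = 2)).card + bb P 0 = bb P j := by
  unfold bb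
  rw [← count_two H j hj, ← count_eq H hj]

/-- Number of elements of level j with two lower covers. PROOF: `count_two` for j + 1; the set
`univ.filter (fun a => lev a + 1 = j + 1)` is `lv P j`. -/
theorem card_dn2 (H : Gr P r) {j : ℕ} (hj : j + 1 ≤ r) :
    ((lv P j).filter (fun z => dn (j + 1) z = 2)).card + bb P 0 = bb P (j + 1) := by
  unfold bb
  rw [← count_two H (j + 1) hj]
  congr 3
  ext z
  simp [lv]

/-- PROOF: `up_pos` and `energy_one`. -/
theorem up_cases (H : Gr P r) {j : ℕ} {z : P} (hz : lev z = j + 1) : up j z = 1 ∨ up j z = 2 := by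
  have h1 := up_pos hz
  have h2 := H.lev_le z
  have h3 := (energy_one H (j := j) (by omega)).2.1 z hz
  omega

/-- PROOF: `dn_pos` and `energy_one`. -/
theorem dn_cases (H : Gr P r) {j : ℕ} {z : P} (hz : lev z = j) (hj : j + 1 ≤ r) :
    dn (j + 1) z = 1 ∨ dn (j + 1) z = 2 := by
  have h1 := dn_pos H (x := z) (j := j + 1) (by omega) hj
  have h3 := (energy_one H (j := j + 1) hj).1 z (by omega)
  omega

/-- PROOF: card_up2 says that exactly one element has up = 2; the others have up = 1 by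
up_cases. -/
theorem exists_up2 (H : Gr P r) (h0 : bb P 0 = 1) {j : ℕ} (hj : j ≤ r) (h2 : bb P j = 2) :
    ∃ D : P, lev D = j + 1 ∧ up j D = 2 ∧ ∀ z : P, lev z = j + 1 → z ≠ D → up j z = 1 := by
  have h := card_up2 H hj
  have h3 : ((lv P (j + 1)).filter (fun z => up j z = 2)).card = 1 := by omega
  obtain ⟨D, hD⟩ := Finset.card_eq_one.1 h3
  have hD' : D ∈ (lv P (j + 1)).filter (fun z => up j z = 2) := by rw [hD]; simp
  rw [mem_filter, mem_lv] at hD'
  refine ⟨D, hD'.1, hD'.2, ?_⟩
  intro z hz hne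
  rcases up_cases H hz with h4 | h4
  · exact h4
  · exfalso
    have : z ∈ (lv P (j + 1)).filter (fun z => up j z = 2) := by
      rw [mem_filter, mem_lv]; exact ⟨hz, h4⟩
    rw [hD, mem_singleton] at this
    exact hne this

/-- PROOF: card_dn2 says that exactly one element of level j has dn = 2; the others have dn = 1 by
dn_cases. -/
theorem exists_dn2 (H : Gr P r) (h0 : bb P 0 = 1) {j : ℕ} (hj : j + 1 ≤ r)
    (h2 : bb P (j + 1) = 2) :
    ∃ D : P, lev D = j ∧ dn (j + 1) D = 2 ∧ ∀ z : P, lev z = j → z ≠ D → dn (j + 1) z = 1 := by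
  have h := card_dn2 H hj
  have h3 : ((lv P j).filter (fun z => dn (j + 1) z = 2)).card = 1 := by omega
  obtain ⟨D, hD⟩ := Finset.card_eq_one.1 h3
  have hD' : D ∈ (lv P j).filter (fun z => dn (j + 1) z = 2) := by rw [hD]; simp
  rw [mem_filter, mem_lv] at hD'
  refine ⟨D, hD'.1, hD'.2, ?_⟩
  intro z hz hne
  rcases dn_cases H hz hj with h4 | h4
  · exact h4
  · exfalso
    have : z ∈ (lv P j).filter (fun z => dn (j + 1) z = 2) := by
      rw [mem_filter, mem_lv]; exact ⟨hz, h4⟩
    rw [hD, mem_singleton] at this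
    exact hne this

/-- PROOF: Finset.card_eq_one. -/
theorem lv_one {j : ℕ} (h : bb P j = 1) : ∃ c : P, lev c = j ∧ ∀ z : P, lev z = j → z = c := by
  obtain ⟨c, hc⟩ := Finset.card_eq_one.1 h
  have e : ∀ z : P, lev z = j ↔ z = c := by
    intro z
    rw [← mem_lv, hc, mem_singleton]
  exact ⟨c, (e c).2 rfl, fun z hz => (e z).1 hz⟩

/-- PROOF: Finset.card_eq_two. -/
theorem lv_two {j : ℕ} (h : bb P j = 2) : ∃ u v : P, u ≠ v ∧ lev u = j ∧ lev v = j ∧
    ∀ z : P, lev z = j → z = u ∨ z = v := by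
  obtain ⟨u, v, huv, hc⟩ := Finset.card_eq_two.1 h
  have e : ∀ z : P, lev z = j ↔ z = u ∨ z = v := by
    intro z
    rw [← mem_lv, hc, mem_insert, mem_singleton]
  exact ⟨u, v, huv, (e u).2 (Or.inl rfl), (e v).2 (Or.inr rfl), fun z hz => (e z).1 hz⟩

theorem Cnt_aux1 {j : ℕ} {u v : P} (hu : lev u = j) (hv : lev v = j)
    (hall : ∀ z : P, lev z = j → z = u ∨ z = v) : lv P j = {u, v} := by
  ext z
  rw [mem_lv, mem_insert, mem_singleton]
  constructor
  · exact hall z
  · rintro (rfl | rfl)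
    · exact hu
    · exact hv

omit [Fintype P] [PartialOrder P] in
theorem Cnt_aux2 {u v : P} (huv : u ≠ v) (p : P → Prop) [DecidablePred p] :
    (({u, v} : Finset P).filter p).card = (if p u then 1 else 0) + (if p v then 1 else 0) := by
  rw [Finset.filter_insert, Finset.filter_singleton]
  by_cases hu : p u <;> by_cases hv : p v <;> simp [hu, hv, huv]

/-- PROOF: the filter defining up is a subset of {u, v}. -/
theorem up_two_iff {j : ℕ} {u v : P} (huv : u ≠ v) (hu : lev u = j) (hv : lev v = j)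
    (hall : ∀ z : P, lev z = j → z = u ∨ z = v) (z : P) : up j z = 2 ↔ z < u ∧ z < v := by
  unfold up
  rw [Cnt_aux1 hu hv hall, Cnt_aux2 huv]
  split_ifs with h1 h2 h2 <;> simp [h1, h2]

/-- PROOF: the filter defining up is a subset of {u, v}. -/
theorem up_one_iff {j : ℕ} {u v : P} (huv : u ≠ v) (hu : lev u = j) (hv : lev v = j)
    (hall : ∀ z : P, lev z = j → z = u ∨ z = v) (z : P) :
    up j z = 1 ↔ (z < u ∧ ¬ z < v) ∨ (z < v ∧ ¬ z < u) := by
  unfold up
  rw [Cnt_aux1 hu hv hall, Cnt_aux2 huv]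
  split_ifs with h1 h2 h2 <;> simp [h1, h2]

/-- PROOF: the filter defining dn is a subset of {u, v}. -/
theorem dn_two_iff {j : ℕ} {u v : P} (huv : u ≠ v) (hu : lev u = j) (hv : lev v = j)
    (hall : ∀ z : P, lev z = j → z = u ∨ z = v) (z : P) : dn j z = 2 ↔ u < z ∧ v < z := by
  unfold dn
  rw [Cnt_aux1 hu hv hall, Cnt_aux2 huv]
  split_ifs with h1 h2 h2 <;> simp [h1, h2]

/-- PROOF: the filter defining dn is a subset of {u, v}. -/
theorem dn_one_iff {j : ℕ} {u v : P} (huv : u ≠ v) (hu : lev u = j) (hv : lev v = j)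
    (hall : ∀ z : P, lev z = j → z = u ∨ z = v) (z : P) :
    dn j z = 1 ↔ (u < z ∧ ¬ v < z) ∨ (v < z ∧ ¬ u < z) := by
  unfold dn
  rw [Cnt_aux1 hu hv hall, Cnt_aux2 huv]
  split_ifs with h1 h2 h2 <;> simp [h1, h2]

/-- PROOF: three different elements u, v, w of level j below z would give dn j z ≥ 3, but
dn j z ≤ 2 by `energy_one`. -/
theorem dn_no_three (H : Gr P r) {j : ℕ} (hj : j ≤ r) {z u v w : P} (hz : lev z + 1 = j)
    (hu : lev u = j) (hv : lev v = j) (hw : lev w = j) (huz : u < z) (hvz : v < z) (hwz : w < z) :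
    u = v ∨ u = w ∨ v = w := by
  classical
  by_contra hcon
  push Not at hcon
  obtain ⟨h1, h2, h3⟩ := hcon
  have h4 := (energy_one H hj).1 z hz
  have h5 : ({u, v, w} : Finset P).card = 3 := by
    rw [Finset.card_eq_three]
    exact ⟨u, v, w, h1, h2, h3, rfl⟩
  have h6 : ({u, v, w} : Finset P) ⊆ (lv P j).filter (fun v => v < z) := by
    intro t ht
    rw [mem_insert, mem_insert, mem_singleton] at ht
    rw [mem_filter, mem_lv]
    rcases ht with rfl | rfl | rfl
    · exact ⟨hu, huz⟩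
    · exact ⟨hv, hvz⟩
    · exact ⟨hw, hwz⟩
  have h7 := Finset.card_le_card h6
  have h8 : dn j z = ((lv P j).filter (fun v => v < z)).card := by
    unfold dn
    convert rfl
  omega

/-- Intermediate element. PROOF: choose v maximal with z ≤ v < w (finite); then v ⋖ w,
so lev v = lev w + 1 by `H.covBy_iff` or `lev_covBy`. -/
theorem lad_exists_between (H : Gr P r) {z w : P} (hzw : z < w) :
    ∃ v : P, z ≤ v ∧ v < w ∧ lev v = lev w + 1 := by
  classical
  have hne : ((univ : Finset P).filter (fun v => z ≤ v ∧ v < w)).Nonempty :=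
    ⟨z, by simp [hzw]⟩
  obtain ⟨v, hv⟩ := Finset.exists_maximal hne
  have hv1 : v ∈ (univ : Finset P).filter (fun v => z ≤ v ∧ v < w) := hv.1
  rw [mem_filter] at hv1
  refine ⟨v, hv1.2.1, hv1.2.2, ?_⟩
  have hcov : v ⋖ w := by
    refine ⟨hv1.2.2, ?_⟩
    intro t ht1 ht2
    have : t ∈ (univ : Finset P).filter (fun v => z ≤ v ∧ v < w) := by
      rw [mem_filter]; exact ⟨mem_univ _, hv1.2.1.trans ht1.le, ht2⟩
    exact absurd (hv.2 this ht1.le) (not_le_of_gt ht1)
  exact (H.covBy_iff.1 hcov).2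

/-- Intermediate element of a given level. PROOF: induction on j - lev w with lad_exists_between. -/
theorem exists_level (H : Gr P r) {z w : P} (hzw : z ≤ w) {j : ℕ} (h1 : lev w ≤ j)
    (h2 : j ≤ lev z) : ∃ v : P, z ≤ v ∧ v ≤ w ∧ lev v = j := by
  have key : ∀ n : ℕ, ∀ w : P, z ≤ w → lev w ≤ j → j - lev w = n →
      ∃ v : P, z ≤ v ∧ v ≤ w ∧ lev v = j := by
    intro n
    induction n with
    | zero =>
      intro w hw h3 h4
      exact ⟨w, hw, le_rfl, by omega⟩
    | succ n ih =>
      intro w hw h3 h4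
      have hlt : z < w := by
        refine lt_of_le_of_ne hw ?_
        rintro rfl
        omega
      obtain ⟨v, e1, e2, e3⟩ := lad_exists_between H hlt
      obtain ⟨v', e4, e5, e6⟩ := ih v e1 (by omega) (by omega)
      exact ⟨v', e4, e5.trans e2.le, e6⟩
  exact key _ w hzw h1 rfl

end Pool.Agent.GaussPoset
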