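import Pool.Agent.W_MP_448cb3_h96.MainB

/-!
Block LADDER + NUMBERS of the case of one maximal element of MP_448cb3_co (paper proof: proofs
row 274). `bb P k` = size of level `k` (levels counted from the top), `ff P K` = number of upper
sets with `K` elements, `up j z` / `dn j z` = number of elements of level `j` above / below `z`
(in W_MP_448cb3_h96), `Gr P r` = Gaussian and graded with last level `r`.
-/

set_option autoImplicit false

namespace Pool.Agent.GaussPoset

open Finset Polynomial

universe u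

/-- upper sets -/
def UpS {P : Type u} [PartialOrder P] (F : Finset P) : Prop := ∀ x y : P, x ≤ y → x ∈ F → y ∈ F

section
variable (P : Type u) [Fintype P] [PartialOrder P] [DecidableEq P]

/-- size of level `k` -/
noncomputable def bb (k : ℕ) : ℕ := (lv P k).card

/-- number of upper sets with `K` elements -/
noncomputable def ff (K : ℕ) : ℕ := by
  classical exact ((univ : Finset (Finset P)).filter (fun F => UpS F ∧ F.card = K)).card

/-- number of elements of level `i+2` which have only one upper cover, this cover having two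
upper covers -/
noncomputable def pdn (i : ℕ) : ℕ := by
  classical exact ((lv P (i + 2)).filter (fun z => up (i + 1) z = 1 ∧
    ∀ w : P, lev w = i + 1 → z < w → up i w = 2)).card

/-- number of elements of level `i-2` which have only one lower cover, this cover having two
lower covers -/
noncomputable def pup (i : ℕ) : ℕ := by
  classical exact ((univ : Finset P).filter (fun x => lev x + 2 = i ∧ dn (i - 1) x = 1 ∧
    ∀ w : P, lev w + 1 = i → w < x → dn i w = 2)).card

/-- the window identity (2,1) at level `i` -/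
def W21 (i : ℕ) : Prop := pdn P i = pup P i

end

section
variable {P : Type u} [Fintype P] [PartialOrder P] [DecidableEq P]

/-- levels `a`, `a+1`, `a+2` of the ladder -/
structure LadA (a : ℕ) (x y d1 s1 d2 s2 : P) : Prop where
  lx : lev x = a
  ly : lev y = a
  ld1 : lev d1 = a + 1
  ls1 : lev s1 = a + 1
  ld2 : lev d2 = a + 2
  ls2 : lev s2 = a + 2
  xy : x ≠ y
  ds1 : d1 ≠ s1
  ds2 : d2 ≠ s2
  L0 : ∀ z : P, lev z = a → z = x ∨ z = y
  L1 : ∀ z : P, lev z = a + 1 → z = d1 ∨ z = s1
  L2 : ∀ z : P, lev z = a + 2 → z = d2 ∨ z = s2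
  d1x : d1 < x
  d1y : d1 < y
  s1y : s1 < y
  s1x : ¬ s1 < x
  d2d1 : d2 < d1
  d2s1 : d2 < s1
  s2d1 : s2 < d1
  s2s1 : ¬ s2 < s1

/-- levels `a` to `a+3` of the ladder -/
structure LadB (a : ℕ) (x y d1 s1 d2 s2 d3 s3 : P) : Prop extends LadA a x y d1 s1 d2 s2 where
  ld3 : lev d3 = a + 3
  ls3 : lev s3 = a + 3
  ds3 : d3 ≠ s3
  L3 : ∀ z : P, lev z = a + 3 → z = d3 ∨ z = s3
  d3d2 : d3 < d2
  d3s2 : d3 < s2
  s3s2 : s3 < s2
  s3d2 : ¬ s3 < d2

/-- levels `a` to `a+4` of the ladder; level `a+4` consists of `d4`, `s4` and possibly one more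
element, which is below `s3` and not below `d3` -/
structure LadC (a : ℕ) (x y d1 s1 d2 s2 d3 s3 d4 s4 : P) : Prop extends
    LadB a x y d1 s1 d2 s2 d3 s3 where
  ld4 : lev d4 = a + 4
  ls4 : lev s4 = a + 4
  ds4 : d4 ≠ s4
  d4d3 : d4 < d3
  d4s3 : d4 < s3
  s4d3 : s4 < d3
  s4s3 : ¬ s4 < s3
  L4 : ∀ z : P, lev z = a + 4 → z ≠ d4 → z ≠ s4 → z < s3 ∧ ¬ z < d3
  L4u : ∀ z z' : P, lev z = a + 4 → z ≠ d4 → z ≠ s4 → lev z' = a + 4 → z' ≠ d4 → z' ≠ s4 →
    z = z'

end

end Pool.Agent.GaussPoset
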