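import Pool.Agent.W_448lad_h84.Model

set_option autoImplicit false

namespace Pool.Agent.GaussPoset

open Finset Polynomial

universe u

/-- order relation of the model x, y, d1, s1, d2, s2, s3 -/
def tab7 : Fin 7 → Fin 7 → Bool :=
  ![![true, false, false, false, false, false, false],
    ![false, true, false, false, false, false, false],
    ![true, true, true, false, false, false, false],
    ![false, true, false, true, false, false, false],
    ![true, true, true, true, true, false, false],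
    ![true, true, true, false, false, true, false],
    ![true, true, true, false, false, true, true]]

variable {P : Type u} [Fintype P] [PartialOrder P] [DecidableEq P] {r : ℕ}

/-- Order relations between the elements of the levels a to a+3 which are not covers.
PROOF. s3 is not below s1: otherwise lad_exists_between gives v with s3 ≤ v < s1, lev v = a + 2 (lev s1 = a + 1), so
v = d2 or v = s2 and s3 < v (different levels); s3 < d2 is excluded by s3d2, and v = s2 gives
s2 < s1, excluded by s2s1. -/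
theorem s3s1 (H : Gr P r) {a : ℕ} {x y d1 s1 d2 s2 d3 s3 : P}
    (L : LadB a x y d1 s1 d2 s2 d3 s3) : ¬ s3 < s1 := by
  intro h
  obtain ⟨v, h1, h2, h3⟩ := lad_exists_between H h
  have hs1 := L.ls1
  have hs3 := L.ls3
  have hv : v = d2 ∨ v = s2 := L.L2 v (by omega)
  rcases hv with rfl | rfl
  · refine L.s3d2 (lt_of_le_of_ne h1 ?_)
    intro h4
    rw [h4] at hs3
    omega
  · exact L.s2s1 h2

theorem FilA_lt {u w : P} (h : u ≤ w) (h2 : lev u ≠ lev w) : u < w :=
  lt_of_le_of_ne h (fun h3 => h2 (by rw [h3]))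

/-- The principal filters of the seven elements. PROOF. Let C = {lev < a}. If lev w < a then w ∈ C.
Otherwise lev w ≤ lev (φ i) ≤ a + 3 (`lev_anti`), so w is x, y, d1, s1, d2, s2, d3 or s3 by
L0..L3; elements of the same level are comparable only if equal (`eq_of_le_of_lev'`); check the
table with s1x, s2s1, s3d2, s3s1 (d3 is not above any of the seven: its level is a+3, so it could
only be ≥ s3, i.e. equal to it). -/
theorem up7 (H : Gr P r) {a : ℕ} {x y d1 s1 d2 s2 d3 s3 : P}
    (L : LadB a x y d1 s1 d2 s2 d3 s3) (i : Fin 7) (w : P)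
    (hw : (![x, y, d1, s1, d2, s2, s3] : Fin 7 → P) i ≤ w) :
    w ∈ (univ : Finset P).filter (fun z => lev z < a) ∨
      ∃ j, tab7 i j = true ∧ w = (![x, y, d1, s1, d2, s2, s3] : Fin 7 → P) j := by
  have hx := L.lx
  have hy := L.ly
  have hd1 := L.ld1
  have hs1 := L.ls1
  have hd2 := L.ld2
  have hs2 := L.ls2
  have hs3 := L.ls3
  by_cases hlt : lev w < a
  · left
    rw [mem_filter]
    exact ⟨mem_univ _, hlt⟩
  right
  have hA := lev_anti hw
  fin_cases i
  · -- x
    change x ≤ w at hw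
    change lev w ≤ lev x at hA
    have h := eq_of_le_of_lev' hw (by omega)
    exact ⟨0, rfl, h.symm⟩
  · -- y
    change y ≤ w at hw
    change lev w ≤ lev y at hA
    have h := eq_of_le_of_lev' hw (by omega)
    exact ⟨1, rfl, h.symm⟩
  · -- d1
    change d1 ≤ w at hw
    change lev w ≤ lev d1 at hA
    have h3 : lev w = a ∨ lev w = a + 1 := by omega
    rcases h3 with h3 | h3
    · rcases L.L0 w h3 with rfl | rfl
      · exact ⟨0, rfl, rfl⟩
      · exact ⟨1, rfl, rfl⟩
    · have h := eq_of_le_of_lev' hw (by omega)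
      exact ⟨2, rfl, h.symm⟩
  · -- s1
    change s1 ≤ w at hw
    change lev w ≤ lev s1 at hA
    have h3 : lev w = a ∨ lev w = a + 1 := by omega
    rcases h3 with h3 | h3
    · rcases L.L0 w h3 with rfl | rfl
      · exact absurd (FilA_lt hw (by omega)) L.s1x
      · exact ⟨1, rfl, rfl⟩
    · have h := eq_of_le_of_lev' hw (by omega)
      exact ⟨3, rfl, h.symm⟩
  · -- d2
    change d2 ≤ w at hw
    change lev w ≤ lev d2 at hA
    have h3 : lev w = a ∨ lev w = a + 1 ∨ lev w = a + 2 := by omega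
    rcases h3 with h3 | h3 | h3
    · rcases L.L0 w h3 with rfl | rfl
      · exact ⟨0, rfl, rfl⟩
      · exact ⟨1, rfl, rfl⟩
    · rcases L.L1 w h3 with rfl | rfl
      · exact ⟨2, rfl, rfl⟩
      · exact ⟨3, rfl, rfl⟩
    · have h := eq_of_le_of_lev' hw (by omega)
      exact ⟨4, rfl, h.symm⟩
  · -- s2
    change s2 ≤ w at hw
    change lev w ≤ lev s2 at hA
    have h3 : lev w = a ∨ lev w = a + 1 ∨ lev w = a + 2 := by omega
    rcases h3 with h3 | h3 | h3
    · rcases L.L0 w h3 with rfl | rfl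
      · exact ⟨0, rfl, rfl⟩
      · exact ⟨1, rfl, rfl⟩
    · rcases L.L1 w h3 with rfl | rfl
      · exact ⟨2, rfl, rfl⟩
      · exact absurd (FilA_lt hw (by omega)) L.s2s1
    · have h := eq_of_le_of_lev' hw (by omega)
      exact ⟨5, rfl, h.symm⟩
  · -- s3
    change s3 ≤ w at hw
    change lev w ≤ lev s3 at hA
    have h3 : lev w = a ∨ lev w = a + 1 ∨ lev w = a + 2 ∨ lev w = a + 3 := by omega
    rcases h3 with h3 | h3 | h3 | h3
    · rcases L.L0 w h3 with rfl | rfl
      · exact ⟨0, rfl, rfl⟩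
      · exact ⟨1, rfl, rfl⟩
    · rcases L.L1 w h3 with rfl | rfl
      · exact ⟨2, rfl, rfl⟩
      · exact absurd (FilA_lt hw (by omega)) (s3s1 H L)
    · rcases L.L2 w h3 with rfl | rfl
      · exact absurd (FilA_lt hw (by omega)) L.s3d2
      · exact ⟨5, rfl, rfl⟩
    · have h := eq_of_le_of_lev' hw (by omega)
      exact ⟨6, rfl, h.symm⟩

theorem FilA_inj {a : ℕ} {x y d1 s1 d2 s2 d3 s3 : P}
    (L : LadB a x y d1 s1 d2 s2 d3 s3) :
    Function.Injective (![x, y, d1, s1, d2, s2, s3] : Fin 7 → P) := by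
  have hx := L.lx
  have hy := L.ly
  have hd1 := L.ld1
  have hs1 := L.ls1
  have hd2 := L.ld2
  have hs2 := L.ls2
  have hs3 := L.ls3
  have key : ∀ i j : Fin 7, i < j → (![x, y, d1, s1, d2, s2, s3] : Fin 7 → P) i ≠
      (![x, y, d1, s1, d2, s2, s3] : Fin 7 → P) j := by
    intro i j hij h
    have hl := congrArg lev h
    fin_cases i <;> fin_cases j <;> first
      | exact absurd hij (by decide)
      | exact L.xy h
      | exact L.ds1 h
      | exact L.ds2 h
      | (exfalso
         simp only [Matrix.cons_val, Fin.isValue] at hl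
         omega)
      | (exfalso
         simp at hl
         omega)
  intro i j h
  rcases lt_trichotomy i j with h1 | h1 | h1
  · exact absurd h (key i j h1)
  · exact h1
  · exact absurd h.symm (key j i h1)

theorem FilA_card {a : ℕ} (h1 : ∀ k, k < a → bb P k = 1) {F T : Finset P} (hF : UpS F)
    (hT : T.Nonempty) (hTF : T ⊆ F) (hl : ∀ t ∈ T, a ≤ lev t) : a + T.card ≤ F.card := by
  obtain ⟨t, ht⟩ := hT
  have hC : (univ : Finset P).filter (fun z => lev z < a) ⊆ F := by
    intro c hc
    rw [mem_filter] at hc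
    have h2 := hl t ht
    exact hF t c (chain_above h1 hc.2 (by omega)) (hTF ht)
  have hd : Disjoint ((univ : Finset P).filter (fun z => lev z < a)) T := by
    rw [Finset.disjoint_left]
    intro c hc hcT
    rw [mem_filter] at hc
    have h2 := hl c hcT
    omega
  have h3 := Finset.card_le_card (Finset.union_subset hC hTF)
  rw [Finset.card_union_of_disjoint hd, card_chain h1] at h3
  exact h3

theorem FilA_lev {a : ℕ} {x y d1 s1 d2 s2 d3 s3 : P}
    (L : LadB a x y d1 s1 d2 s2 d3 s3) (i : Fin 7) :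
    a ≤ lev ((![x, y, d1, s1, d2, s2, s3] : Fin 7 → P) i) ∧
      lev ((![x, y, d1, s1, d2, s2, s3] : Fin 7 → P) i) ≤ a + 3 := by
  have hx := L.lx
  have hy := L.ly
  have hd1 := L.ld1
  have hs1 := L.ls1
  have hd2 := L.ld2
  have hs2 := L.ls2
  have hs3 := L.ls3
  fin_cases i
  · change a ≤ lev x ∧ lev x ≤ a + 3
    omega
  · change a ≤ lev y ∧ lev y ≤ a + 3
    omega
  · change a ≤ lev d1 ∧ lev d1 ≤ a + 3
    omega
  · change a ≤ lev s1 ∧ lev s1 ≤ a + 3
    omega
  · change a ≤ lev d2 ∧ lev d2 ≤ a + 3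
    omega
  · change a ≤ lev s2 ∧ lev s2 ≤ a + 3
    omega
  · change a ≤ lev s3 ∧ lev s3 ≤ a + 3
    omega

theorem FilA_d3 {a : ℕ} (h1 : ∀ k, k < a → bb P k = 1)
    {x y d1 s1 d2 s2 d3 s3 : P} (L : LadB a x y d1 s1 d2 s2 d3 s3)
    {F : Finset P} (hF : UpS F) (h : d3 ∈ F) : a + 7 ≤ F.card := by
  have hd2 := hF _ _ L.d3d2.le h
  have hs2 := hF _ _ L.d3s2.le h
  have hd1 := hF _ _ L.d2d1.le hd2
  have hs1 := hF _ _ L.d2s1.le hd2
  have hx := hF _ _ L.d1x.le hd1
  have hy := hF _ _ L.d1y.le hd1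
  have hinj := FilA_inj L
  have hld3 := L.ld3
  have hne : ∀ i : Fin 7, (![x, y, d1, s1, d2, s2, s3] : Fin 7 → P) i ≠ d3 := by
    intro i hi
    have hx := L.lx
    have hy := L.ly
    have hd1 := L.ld1
    have hs1 := L.ls1
    have hd2 := L.ld2
    have hs2 := L.ls2
    have hs3 := L.ls3
    fin_cases i
    · change x = d3 at hi
      rw [hi] at hx; omega
    · change y = d3 at hi
      rw [hi] at hy; omega
    · change d1 = d3 at hi
      rw [hi] at hd1; omega
    · change s1 = d3 at hi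
      rw [hi] at hs1; omega
    · change d2 = d3 at hi
      rw [hi] at hd2; omega
    · change s2 = d3 at hi
      rw [hi] at hs2; omega
    · change s3 = d3 at hi
      exact L.ds3 hi.symm
  have hT : (insert d3 (({0, 1, 2, 3, 4, 5} : Finset (Fin 7)).image
      (![x, y, d1, s1, d2, s2, s3] : Fin 7 → P))).card = 7 := by
    rw [Finset.card_insert_of_notMem, Finset.card_image_of_injective _ hinj]
    · decide
    · rw [mem_image]
      rintro ⟨i, _, hi⟩
      exact hne i hi
  rw [← hT]
  refine FilA_card h1 hF (Finset.insert_nonempty _ _) ?_ ?_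
  · intro t ht
    rw [mem_insert, mem_image] at ht
    rcases ht with rfl | ⟨i, hi, rfl⟩
    · exact h
    · fin_cases i
      · exact hx
      · exact hy
      · exact hd1
      · exact hs1
      · exact hd2
      · exact hs2
      · exact absurd hi (by decide)
  · intro t ht
    rw [mem_insert, mem_image] at ht
    rcases ht with rfl | ⟨i, hi, rfl⟩
    · omega
    · exact (FilA_lev L i).1

theorem FilA_high {a : ℕ} {x y d1 s1 d2 s2 d3 s3 : P}
    (L : LadB a x y d1 s1 d2 s2 d3 s3) (z : P) (hz : z ≠ d3)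
    (hn : ¬ (z ∈ (univ : Finset P).filter (fun z => lev z < a) ∨
      ∃ j, z = (![x, y, d1, s1, d2, s2, s3] : Fin 7 → P) j)) : a + 4 ≤ lev z := by
  push Not at hn
  obtain ⟨h1, h2⟩ := hn
  rw [mem_filter] at h1
  have h3 : ¬ lev z < a := fun h => h1 ⟨mem_univ _, h⟩
  by_contra hcon
  have h4 : lev z = a ∨ lev z = a + 1 ∨ lev z = a + 2 ∨ lev z = a + 3 := by omega
  rcases h4 with h4 | h4 | h4 | h4
  · rcases L.L0 z h4 with h5 | h5
    · exact h2 0 h5
    · exact h2 1 h5
  · rcases L.L1 z h4 with h5 | h5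
    · exact h2 2 h5
    · exact h2 3 h5
  · rcases L.L2 z h4 with h5 | h5
    · exact h2 4 h5
    · exact h2 5 h5
  · rcases L.L3 z h4 with h5 | h5
    · exact hz h5
    · exact h2 6 h5

/-- The elements of an upper set with at most a+5 elements. PROOF. Let C = {lev < a} (a elements).
If d3 ∈ F then F contains C and x, y, d1, s1, d2, s2, d3: a + 7 elements. Otherwise let z ∈ F
with lev z ≥ a + 4; there is z' ≥ z of level a+4 (`exists_above'`), z' ∈ F; z' is not d4, s4
(they are below d3), so z' < s3 (L4) and F contains C and x, y, d1, s2, s3, z': a + 6 elements.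
So all elements of F have level ≤ a + 3 and are not d3. -/
theorem small5 (H : Gr P r) {a : ℕ} (h1 : ∀ k, k < a → bb P k = 1)
    {x y d1 s1 d2 s2 d3 s3 d4 s4 : P} (L : LadC a x y d1 s1 d2 s2 d3 s3 d4 s4)
    {F : Finset P} (hF : UpS F) (hc : F.card ≤ a + 5) (z : P) (hz : z ∈ F) :
    z ∈ (univ : Finset P).filter (fun z => lev z < a) ∨
      ∃ j, z = (![x, y, d1, s1, d2, s2, s3] : Fin 7 → P) j := by
  have hd3 : d3 ∉ F := by
    intro h
    have := FilA_d3 h1 L.toLadB hF h
    omega
  by_contra hn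
  have h4 := FilA_high L.toLadB z (fun h => hd3 (h ▸ hz)) hn
  obtain ⟨z', hzz, hz'⟩ := exists_above' h4
  have hzF : z' ∈ F := hF z z' hzz hz
  have hd4 : z' ≠ d4 := by
    rintro rfl
    exact hd3 (hF _ _ L.d4d3.le hzF)
  have hs4 : z' ≠ s4 := by
    rintro rfl
    exact hd3 (hF _ _ L.s4d3.le hzF)
  have h5 := (L.L4 z' hz' hd4 hs4).1
  have hs3F := hF _ _ h5.le hzF
  have hs2F := hF _ _ L.s3s2.le hs3F
  have hd1F := hF _ _ L.s2d1.le hs2F
  have hxF := hF _ _ L.d1x.le hd1F
  have hyF := hF _ _ L.d1y.le hd1F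
  have hinj := FilA_inj L.toLadB
  have hT : (insert z' (({0, 1, 2, 5, 6} : Finset (Fin 7)).image
      (![x, y, d1, s1, d2, s2, s3] : Fin 7 → P))).card = 6 := by
    rw [Finset.card_insert_of_notMem, Finset.card_image_of_injective _ hinj]
    · decide
    · rw [mem_image]
      rintro ⟨i, _, hi⟩
      have h6 := (FilA_lev L.toLadB i).2
      rw [hi] at h6
      omega
  have h7 : a + 6 ≤ F.card := by
    rw [← hT]
    refine FilA_card h1 hF (Finset.insert_nonempty _ _) ?_ ?_
    · intro t ht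
      rw [mem_insert, mem_image] at ht
      rcases ht with rfl | ⟨i, hi, rfl⟩
      · exact hzF
      · fin_cases i
        · exact hxF
        · exact hyF
        · exact hd1F
        · exact absurd hi (by decide)
        · exact absurd hi (by decide)
        · exact hs2F
        · exact hs3F
    · intro t ht
      rw [mem_insert, mem_image] at ht
      rcases ht with rfl | ⟨i, hi, rfl⟩
      · omega
      · exact (FilA_lev L.toLadB i).1
  omega

/-- The same for at most a+6 elements if level a+4 is {d4, s4}. PROOF. d3 ∈ F gives a + 7 elements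
as before. Otherwise z ∈ F with lev z ≥ a + 4 gives z' ∈ F of level a+4, z' = d4 or s4, which is
below d3, so d3 ∈ F. -/
theorem small6 (H : Gr P r) {a : ℕ} (h1 : ∀ k, k < a → bb P k = 1)
    {x y d1 s1 d2 s2 d3 s3 d4 s4 : P} (L : LadC a x y d1 s1 d2 s2 d3 s3 d4 s4)
    (hL : ∀ z : P, lev z = a + 4 → z = d4 ∨ z = s4)
    {F : Finset P} (hF : UpS F) (hc : F.card ≤ a + 6) (z : P) (hz : z ∈ F) :
    z ∈ (univ : Finset P).filter (fun z => lev z < a) ∨
      ∃ j, z = (![x, y, d1, s1, d2, s2, s3] : Fin 7 → P) j := by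
  have hd3 : d3 ∉ F := by
    intro h
    have := FilA_d3 h1 L.toLadB hF h
    omega
  by_contra hn
  have h4 := FilA_high L.toLadB z (fun h => hd3 (h ▸ hz)) hn
  obtain ⟨z', hzz, hz'⟩ := exists_above' h4
  have hzF : z' ∈ F := hF z z' hzz hz
  rcases hL z' hz' with rfl | rfl
  · exact hd3 (hF _ _ L.d4d3.le hzF)
  · exact hd3 (hF _ _ L.s4d3.le hzF)

theorem FilA_hle {a : ℕ} {x y d1 s1 d2 s2 d3 s3 : P}
    (L : LadB a x y d1 s1 d2 s2 d3 s3) (i j : Fin 7) (h : tab7 i j = true) :
    (![x, y, d1, s1, d2, s2, s3] : Fin 7 → P) i ≤ (![x, y, d1, s1, d2, s2, s3] : Fin 7 → P) j := by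
  have e1 := L.d1x.le
  have e2 := L.d1y.le
  have e3 := L.s1y.le
  have e4 := L.d2d1.le
  have e5 := L.d2s1.le
  have e6 := L.s2d1.le
  have e7 := L.s3s2.le
  fin_cases i <;> fin_cases j <;> first
    | exact absurd h (by decide)
    | exact le_refl _
    | exact e1
    | exact e2
    | exact e3
    | exact e4
    | exact e5
    | exact e6
    | exact e7
    | exact e4.trans e1
    | exact e4.trans e2
    | exact e5.trans e3
    | exact e6.trans e1
    | exact e6.trans e2
    | exact e7.trans e6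
    | exact (e7.trans e6).trans e1
    | exact (e7.trans e6).trans e2

theorem FilA_ff (H : Gr P r) {a : ℕ} (h1 : ∀ k, k < a → bb P k = 1)
    {x y d1 s1 d2 s2 d3 s3 : P} (L : LadB a x y d1 s1 d2 s2 d3 s3) {t : ℕ} (ht : 0 < t)
    (hs : ∀ F : Finset P, UpS F → F.card = a + t → ∀ z ∈ F,
      z ∈ (univ : Finset P).filter (fun z => lev z < a) ∨
      ∃ j, z = (![x, y, d1, s1, d2, s2, s3] : Fin 7 → P) j) :
    ff P (a + t) = ((univ : Finset (Finset (Fin 7))).filter (fun G =>
      (∀ i j, tab7 i j = true → i ∈ G → j ∈ G) ∧ G.card = t)).card := by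
  rw [count_model (![x, y, d1, s1, d2, s2, s3] : Fin 7 → P) (FilA_inj L)
    ((univ : Finset P).filter (fun z => lev z < a)) ?_ (upS_chain a) tab7 (FilA_hle L)
    (fun i w hw => up7 H L i w hw) (K := a + t) ?_]
  · rw [card_chain h1]
    congr 2
    ext G
    constructor
    · rintro ⟨h2, h3⟩
      exact ⟨h2, by omega⟩
    · rintro ⟨h2, h3⟩
      exact ⟨h2, by omega⟩
  · intro i hi
    rw [mem_filter] at hi
    have := (FilA_lev L i).1
    omega
  · intro F hF hc
    exact ⟨chain_subset h1 hF (by omega), hs F hF hc⟩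

/-- PROOF: count_model with m = 7, φ = ![x, y, d1, s1, d2, s2, s3], C = {lev < a}, le = tab7
(up7, small5, chain_subset, card_chain, upS_chain); the number of finsets G of Fin 7 closed under
tab7 with t elements is 2, 2, 2, 3 for t = 1, 2, 4, 5 (decide). -/
theorem ff_lad (H : Gr P r) {a : ℕ} (h1 : ∀ k, k < a → bb P k = 1)
    {x y d1 s1 d2 s2 d3 s3 d4 s4 : P} (L : LadC a x y d1 s1 d2 s2 d3 s3 d4 s4) :
    ff P (a + 1) = 2 ∧ ff P (a + 2) = 2 ∧ ff P (a + 4) = 2 ∧ ff P (a + 5) = 3 := by
  refine ⟨?_, ?_, ?_, ?_⟩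
  · rw [FilA_ff H h1 L.toLadB (by omega) (fun F hF hc z hz => small5 H h1 L hF (by omega) z hz)]
    decide +kernel
  · rw [FilA_ff H h1 L.toLadB (by omega) (fun F hF hc z hz => small5 H h1 L hF (by omega) z hz)]
    decide +kernel
  · rw [FilA_ff H h1 L.toLadB (by omega) (fun F hF hc z hz => small5 H h1 L hF (by omega) z hz)]
    decide +kernel
  · rw [FilA_ff H h1 L.toLadB (by omega) (fun F hF hc z hz => small5 H h1 L hF (by omega) z hz)]
    decide +kernel

/-- PROOF: count_model as in ff_lad, with small6; the number of G with 6 elements is 2. -/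
theorem ff_six_two (H : Gr P r) {a : ℕ} (h1 : ∀ k, k < a → bb P k = 1)
    {x y d1 s1 d2 s2 d3 s3 d4 s4 : P} (L : LadC a x y d1 s1 d2 s2 d3 s3 d4 s4)
    (hL : ∀ z : P, lev z = a + 4 → z = d4 ∨ z = s4) : ff P (a + 6) = 2 := by
  rw [FilA_ff H h1 L.toLadB (by omega)
    (fun F hF hc z hz => small6 H h1 L hL hF (by omega) z hz)]
  decide +kernel

end Pool.Agent.GaussPoset
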