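import Pool.Agent.W_448lad_h84.FilA

set_option autoImplicit false

namespace Pool.Agent.GaussPoset

open Finset Polynomial

universe u

/-- order relation of the model x, y, d1, s1, d2, s2, s3, s' -/
def tab8 : Fin 8 → Fin 8 → Bool :=
  ![![true, false, false, false, false, false, false, false],
    ![false, true, false, false, false, false, false, false],
    ![true, true, true, false, false, false, false, false],
    ![false, true, false, true, false, false, false, false],
    ![true, true, true, true, true, false, false, false],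
    ![true, true, true, false, false, true, false, false],
    ![true, true, true, false, false, true, true, false],
    ![true, true, true, false, false, true, true, true]]

variable {P : Type u} [Fintype P] [PartialOrder P] [DecidableEq P] {r : ℕ}

omit [Fintype P] [PartialOrder P] [DecidableEq P] in
theorem FilB_phi (x y d1 s1 d2 s2 s3 s' : P) (j : Fin 7) :
    (![x, y, d1, s1, d2, s2, s3, s'] : Fin 8 → P) j.castSucc =
      (![x, y, d1, s1, d2, s2, s3] : Fin 7 → P) j := by
  fin_cases j <;> rfl

theorem FilB_tab (i j : Fin 7) : tab8 i.castSucc j.castSucc = tab7 i j := by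
  revert i j
  decide

theorem FilB_tab2 (j : Fin 7) : tab7 6 j = true → tab8 (Fin.last 7) j.castSucc = true := by
  revert j
  decide

/-- The principal filters of the eight elements. PROOF. For the first seven see up7. Let
s' ≤ w. If w = s' done. Otherwise s' < w, so lev w ≤ a + 3; exists_level gives v with s' ≤ v ≤ w, lev v = a + 3;
s' < v, so v = s3 because not s' < d3 (L3), and s3 ≤ w: use up7 for s3. -/
theorem up8 (H : Gr P r) {a : ℕ} {x y d1 s1 d2 s2 d3 s3 : P}
    (L : LadB a x y d1 s1 d2 s2 d3 s3) {s' : P} (hs : lev s' = a + 4) (hs3 : s' < s3)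
    (hsd : ¬ s' < d3) (i : Fin 8) (w : P)
    (hw : (![x, y, d1, s1, d2, s2, s3, s'] : Fin 8 → P) i ≤ w) :
    w ∈ (univ : Finset P).filter (fun z => lev z < a) ∨
      ∃ j, tab8 i j = true ∧ w = (![x, y, d1, s1, d2, s2, s3, s'] : Fin 8 → P) j := by
  revert hw
  refine Fin.lastCases ?_ (fun i => ?_) i
  · intro hw
    have hw' : s' ≤ w := hw
    rcases hw'.eq_or_lt with h | h
    · exact Or.inr ⟨Fin.last 7, by decide, h.symm⟩
    · have h1 := lev_strictAnti h
      obtain ⟨v, hv1, hv2, hv3⟩ := exists_level H hw' (j := a + 3) (by omega) (by omega)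
      rcases L.L3 v hv3 with rfl | rfl
      · rcases hv1.eq_or_lt with h2 | h2
        · rw [h2] at hs
          omega
        · exact absurd h2 hsd
      · rcases up7 H L 6 w hv2 with h2 | ⟨j, hj, rfl⟩
        · exact Or.inl h2
        · exact Or.inr ⟨j.castSucc, FilB_tab2 j hj, (FilB_phi _ _ _ _ _ _ _ _ j).symm⟩
  · intro hw
    rw [FilB_phi] at hw
    rcases up7 H L i w hw with h2 | ⟨j, hj, rfl⟩
    · exact Or.inl h2
    · exact Or.inr ⟨j.castSucc, by rw [FilB_tab]; exact hj, (FilB_phi _ _ _ _ _ _ _ _ j).symm⟩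

/-- An upper set which contains the members of a nonempty list of elements of level ≥ a. -/
theorem FilB_card {a : ℕ} (h1 : ∀ k, k < a → bb P k = 1) {F : Finset P} (hF : UpS F)
    (v : P) (l : List P) (hl : (v :: l).Nodup) (hm : ∀ w ∈ v :: l, w ∈ F ∧ a ≤ lev w) :
    a + (v :: l).length ≤ F.card := by
  have hC : (univ : Finset P).filter (fun z => lev z < a) ⊆ F := by
    intro c hc
    rw [mem_filter] at hc
    obtain ⟨h2, h3⟩ := hm v (List.mem_cons_self)
    exact hF v c (chain_above h1 hc.2 (by omega)) h2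
  have hd : Disjoint ((univ : Finset P).filter (fun z => lev z < a)) (v :: l).toFinset := by
    rw [Finset.disjoint_left]
    intro c hc hc2
    rw [mem_filter] at hc
    have := (hm c (List.mem_toFinset.1 hc2)).2
    omega
  have hsub : (univ : Finset P).filter (fun z => lev z < a) ∪ (v :: l).toFinset ⊆ F := by
    refine Finset.union_subset hC ?_
    intro c hc
    exact (hm c (List.mem_toFinset.1 hc)).1
  have h2 := Finset.card_le_card hsub
  rwa [Finset.card_union_of_disjoint hd, card_chain h1, List.toFinset_card_of_nodup hl] at h2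

/-- The elements of an upper set with at most a+6 elements. PROOF. d3 ∈ F gives a + 7 elements
(C, x, y, d1, s1, d2, s2, d3). Otherwise the elements of F of level a+4 are equal to s' (d4 and s4
are below d3). If z ∈ F has level ≥ a + 5 then there is z'' ≥ z of level a+5 in F and z' > z'' of
level a+4 in F, so z' = s' and F contains C and x, y, d1, s2, s3, s', z'': a + 7 elements. -/
theorem small8 (H : Gr P r) {a : ℕ} (h1 : ∀ k, k < a → bb P k = 1)
    {x y d1 s1 d2 s2 d3 s3 d4 s4 : P} (L : LadC a x y d1 s1 d2 s2 d3 s3 d4 s4) {s' : P}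
    (hs : lev s' = a + 4) (hs3 : s' < s3)
    (hL : ∀ z : P, lev z = a + 4 → z = d4 ∨ z = s4 ∨ z = s')
    {F : Finset P} (hF : UpS F) (hc : F.card ≤ a + 6) (z : P) (hz : z ∈ F) :
    z ∈ (univ : Finset P).filter (fun z => lev z < a) ∨
      ∃ j, z = (![x, y, d1, s1, d2, s2, s3, s'] : Fin 8 → P) j := by
  have hne : ∀ u v : P, lev u ≠ lev v → u ≠ v := fun u v h e => h (by rw [e])
  have lx := L.lx
  have ly := L.ly
  have ld1 := L.ld1
  have ls1 := L.ls1
  have ld2 := L.ld2
  have ls2 := L.ls2
  have ld3 := L.ld3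
  have ls3 := L.ls3
  have hd3 : d3 ∉ F := by
    intro h3
    have hd2 := hF _ _ L.d3d2.le h3
    have hs2 := hF _ _ L.d3s2.le h3
    have hd1 := hF _ _ L.d2d1.le hd2
    have hs1 := hF _ _ L.d2s1.le hd2
    have hx := hF _ _ L.d1x.le hd1
    have hy := hF _ _ L.d1y.le hd1
    have hl : [x, y, d1, s1, d2, s2, d3].Nodup := by
      simp only [List.nodup_cons, List.mem_cons, List.not_mem_nil, not_or, or_false,
        not_false_eq_true, List.nodup_nil, and_true]
      refine ⟨⟨L.xy, ?_, ?_, ?_, ?_, ?_⟩, ⟨?_, ?_, ?_, ?_, ?_⟩, ⟨L.ds1, ?_, ?_, ?_⟩, ⟨?_, ?_, ?_⟩,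
        ⟨L.ds2, ?_⟩, ?_⟩ <;> (apply hne; omega)
    have h4 := FilB_card h1 hF x [y, d1, s1, d2, s2, d3] hl (by
      intro w hw
      simp only [List.mem_cons, List.not_mem_nil, or_false] at hw
      rcases hw with rfl | rfl | rfl | rfl | rfl | rfl | rfl
      · exact ⟨hx, by omega⟩
      · exact ⟨hy, by omega⟩
      · exact ⟨hd1, by omega⟩
      · exact ⟨hs1, by omega⟩
      · exact ⟨hd2, by omega⟩
      · exact ⟨hs2, by omega⟩
      · exact ⟨h3, by omega⟩)
    simp only [List.length_cons, List.length_nil] at h4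
    omega
  have h4 : ∀ w ∈ F, lev w = a + 4 → w = s' := by
    intro w hw hw4
    rcases hL w hw4 with rfl | rfl | rfl
    · exact absurd (hF _ _ L.d4d3.le hw) hd3
    · exact absurd (hF _ _ L.s4d3.le hw) hd3
    · rfl
  have h5 : lev z ≤ a + 4 := by
    by_contra hcon
    obtain ⟨z2, hz2, hl2⟩ := exists_above' (x := z) (j := a + 5) (by omega)
    have hz2F := hF _ _ hz2 hz
    obtain ⟨z1, hz1, hl1⟩ := exists_lev_succ (x := z2) (k := a + 4) (by omega)
    have hz1F := hF _ _ hz1.le hz2F
    have e := h4 z1 hz1F hl1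
    subst e
    have hs3F := hF _ _ hs3.le hz1F
    have hs2F := hF _ _ L.s3s2.le hs3F
    have hd1 := hF _ _ L.s2d1.le hs2F
    have hx := hF _ _ L.d1x.le hd1
    have hy := hF _ _ L.d1y.le hd1
    have hl : [x, y, d1, s2, s3, z1, z2].Nodup := by
      simp only [List.nodup_cons, List.mem_cons, List.not_mem_nil, not_or, or_false,
        not_false_eq_true, List.nodup_nil, and_true]
      refine ⟨⟨L.xy, ?_, ?_, ?_, ?_, ?_⟩, ⟨?_, ?_, ?_, ?_, ?_⟩, ⟨?_, ?_, ?_, ?_⟩, ⟨?_, ?_, ?_⟩,
        ⟨?_, ?_⟩, ?_⟩ <;> (apply hne; omega)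
    have h6 := FilB_card h1 hF x [y, d1, s2, s3, z1, z2] hl (by
      intro w hw
      simp only [List.mem_cons, List.not_mem_nil, or_false] at hw
      rcases hw with rfl | rfl | rfl | rfl | rfl | rfl | rfl
      · exact ⟨hx, by omega⟩
      · exact ⟨hy, by omega⟩
      · exact ⟨hd1, by omega⟩
      · exact ⟨hs2F, by omega⟩
      · exact ⟨hs3F, by omega⟩
      · exact ⟨hz1F, by omega⟩
      · exact ⟨hz2F, by omega⟩)
    simp only [List.length_cons, List.length_nil] at h6
    omega
  by_cases ha : lev z < a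
  · left
    rw [mem_filter]
    exact ⟨mem_univ _, ha⟩
  right
  have h6 : lev z = a ∨ lev z = a + 1 ∨ lev z = a + 2 ∨ lev z = a + 3 ∨ lev z = a + 4 := by omega
  rcases h6 with h | h | h | h | h
  · rcases L.L0 z h with e | e
    · exact ⟨0, e⟩
    · exact ⟨1, e⟩
  · rcases L.L1 z h with e | e
    · exact ⟨2, e⟩
    · exact ⟨3, e⟩
  · rcases L.L2 z h with e | e
    · exact ⟨4, e⟩
    · exact ⟨5, e⟩
  · rcases L.L3 z h with e | e
    · exact absurd (e ▸ hz) hd3
    · exact ⟨6, e⟩
  · exact ⟨7, h4 z hz h⟩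

theorem FilB_count : ((univ : Finset (Finset (Fin 8))).filter (fun G =>
    (∀ i j, tab8 i j = true → i ∈ G → j ∈ G) ∧ G.card = 6)).card = 3 := by
  decide +kernel

/-- PROOF: count_model with m = 8, φ = ![x, y, d1, s1, d2, s2, s3, s'], C = {lev < a}, le = tab8
(up8, small8, chain_subset, card_chain, upS_chain); the number of finsets G of Fin 8 closed under
tab8 with 6 elements is 3 (decide). -/
theorem ff_six_three (H : Gr P r) {a : ℕ} (h1 : ∀ k, k < a → bb P k = 1)
    {x y d1 s1 d2 s2 d3 s3 d4 s4 : P} (L : LadC a x y d1 s1 d2 s2 d3 s3 d4 s4) {s' : P}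
    (hs : lev s' = a + 4) (hs4 : s' ≠ d4) (hs5 : s' ≠ s4) (hs3 : s' < s3) (hsd : ¬ s' < d3)
    (hL : ∀ z : P, lev z = a + 4 → z = d4 ∨ z = s4 ∨ z = s') : ff P (a + 6) = 3 := by
  have hne : ∀ u v : P, lev u ≠ lev v → u ≠ v := fun u v h e => h (by rw [e])
  have lx := L.lx
  have ly := L.ly
  have ld1 := L.ld1
  have ls1 := L.ls1
  have ld2 := L.ld2
  have ls2 := L.ls2
  have ld3 := L.ld3
  have ls3 := L.ls3
  have hinj : Function.Injective (![x, y, d1, s1, d2, s2, s3, s'] : Fin 8 → P) := by
    rw [← List.nodup_ofFn]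
    show [x, y, d1, s1, d2, s2, s3, s'].Nodup
    simp only [List.nodup_cons, List.mem_cons, List.not_mem_nil, not_or, or_false,
        not_false_eq_true, List.nodup_nil, and_true]
    refine ⟨⟨L.xy, ?_, ?_, ?_, ?_, ?_, ?_⟩, ⟨?_, ?_, ?_, ?_, ?_, ?_⟩, ⟨L.ds1, ?_, ?_, ?_, ?_⟩,
      ⟨?_, ?_, ?_, ?_⟩, ⟨L.ds2, ?_, ?_⟩, ⟨?_, ?_⟩, ?_⟩ <;> (apply hne; omega)
  have hC : ∀ i : Fin 8, (![x, y, d1, s1, d2, s2, s3, s'] : Fin 8 → P) i ∉
      (univ : Finset P).filter (fun z => lev z < a) := by
    intro i
    rw [mem_filter]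
    rintro ⟨-, h⟩
    fin_cases i
    · exact absurd (show lev x < a from h) (by omega)
    · exact absurd (show lev y < a from h) (by omega)
    · exact absurd (show lev d1 < a from h) (by omega)
    · exact absurd (show lev s1 < a from h) (by omega)
    · exact absurd (show lev d2 < a from h) (by omega)
    · exact absurd (show lev s2 < a from h) (by omega)
    · exact absurd (show lev s3 < a from h) (by omega)
    · exact absurd (show lev s' < a from h) (by omega)
  have e1 := L.d1x.le
  have e2 := L.d1y.le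
  have e3 := L.s1y.le
  have e4 := L.d2d1.le
  have e5 := L.d2s1.le
  have e6 := e4.trans e1
  have e7 := e4.trans e2
  have e8 := L.s2d1.le
  have e9 := e8.trans e1
  have e10 := e8.trans e2
  have e11 := L.s3s2.le
  have e12 := e11.trans e8
  have e13 := e12.trans e1
  have e14 := e12.trans e2
  have e15 := hs3.le
  have e16 := e15.trans e11
  have e17 := e15.trans e12
  have e18 := e15.trans e13
  have e19 := e15.trans e14
  have hle : ∀ i j : Fin 8, tab8 i j = true → (![x, y, d1, s1, d2, s2, s3, s'] : Fin 8 → P) i ≤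
      (![x, y, d1, s1, d2, s2, s3, s'] : Fin 8 → P) j := by
    intro i j h
    fin_cases i <;> fin_cases j <;> first
      | exact absurd h (by decide)
      | exact le_rfl
      | exact e1
      | exact e2
      | exact e3
      | exact e4
      | exact e5
      | exact e6
      | exact e7
      | exact e8
      | exact e9
      | exact e10
      | exact e11
      | exact e12
      | exact e13
      | exact e14
      | exact e15
      | exact e16
      | exact e17
      | exact e18
      | exact e19
  rw [count_model (![x, y, d1, s1, d2, s2, s3, s'] : Fin 8 → P) hinj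
    ((univ : Finset P).filter (fun z => lev z < a)) hC (upS_chain a) tab8 hle
    (up8 H L.toLadB hs hs3 hsd) (K := a + 6)
    (fun F hF hc => ⟨chain_subset h1 hF (by omega), fun z hz =>
      small8 H h1 L hs hs3 hL hF hc.le z hz⟩), ← FilB_count]
  congr 1
  refine Finset.filter_congr fun G _ => ?_
  rw [card_chain h1]
  refine and_congr_right fun _ => ?_
  omega

end Pool.Agent.GaussPoset
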