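import Pool.Agent.W_448lad_h84.StrA

set_option autoImplicit false

namespace Pool.Agent.GaussPoset

open Finset Polynomial

universe u

variable {P : Type u} [Fintype P] [PartialOrder P] [DecidableEq P] {r : ℕ}

theorem StrB_bb2 {j : ℕ} {u v : P} (huv : u ≠ v) (hu : lev u = j) (hv : lev v = j)
    (hall : ∀ z : P, lev z = j → z = u ∨ z = v) : bb P j = 2 := by
  unfold bb
  rw [Cnt_aux1 hu hv hall, Finset.card_pair huv]

theorem StrB_exists {j : ℕ} (h : 2 ≤ bb P j) (d : P) : ∃ s : P, lev s = j ∧ s ≠ d := by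
  by_contra hcon
  push Not at hcon
  have h1 : lv P j ⊆ {d} := by
    intro z hz
    rw [mem_lv] at hz
    rw [mem_singleton]
    exact hcon z hz
  have h2 := Finset.card_le_card h1
  rw [Finset.card_singleton] at h2
  unfold bb at h
  omega

/-- Level a+3. PROOF. bb P (a+3) ≥ 2 gives a + 3 ≤ r. exists_up2 (j = a+2, bb P (a+2) = 2): d3 with
d3 < d2, d3 < s2, all other z of level a+3 have up (a+2) z = 1. Let z be one of them. If z < d2
then not z < s2 (up_one_iff), the only w of level a+2 above z is d2 and up (a+1) d2 = 2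
(up_two_iff), so z is in the filter of pdn P (a+1), but pdn P (a+1) = pup P (a+1) = 0 by hW and
pup_a1. So z < s2 and not z < d2. Two different such z would give three elements of level a+3
below s2, against dn_no_three. So there is at most one, and there is one because
bb P (a+3) ≥ 2. -/
theorem ladB_exists (H : Gr P r) {a : ℕ} (ha : 2 ≤ a) (h1 : ∀ k, k < a → bb P k = 1)
    {x y d1 s1 d2 s2 : P} (L : LadA a x y d1 s1 d2 s2) (h3 : 2 ≤ bb P (a + 3))
    (hW : W21 P (a + 1)) :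
    bb P (a + 3) = 2 ∧ ∃ d3 s3 : P, LadB a x y d1 s1 d2 s2 d3 s3 := by
  classical
  have h0 : bb P 0 = 1 := h1 0 (by omega)
  have har : a + 3 ≤ r := StrA_le H (by omega)
  have b0 : bb P a = 2 := StrB_bb2 L.xy L.lx L.ly L.L0
  have b2 : bb P (a + 2) = 2 := StrB_bb2 L.ds2 L.ld2 L.ls2 L.L2
  obtain ⟨d3, hd3, hd3u, hd3o⟩ := exists_up2 H h0 (j := a + 2) (by omega) b2
  obtain ⟨hdd, hds⟩ := (up_two_iff L.ds2 L.ld2 L.ls2 L.L2 d3).1 hd3u
  have hpdn : pdn P (a + 1) = 0 := by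
    have h4 := pup_a1 H (by omega) h1 b0
    unfold W21 at hW
    omega
  have hup2 : up (a + 1) d2 = 2 :=
    (up_two_iff L.ds1 L.ld1 L.ls1 L.L1 d2).2 ⟨L.d2d1, L.d2s1⟩
  have key : ∀ z : P, lev z = a + 3 → z ≠ d3 → z < s2 ∧ ¬ z < d2 := by
    intro z hz hzd
    have h4 := hd3o z hz hzd
    rcases (up_one_iff L.ds2 L.ld2 L.ls2 L.L2 z).1 h4 with ⟨h5, h6⟩ | h5
    · exfalso
      unfold pdn at hpdn
      rw [Finset.card_eq_zero, Finset.filter_eq_empty_iff] at hpdn
      refine hpdn (x := z) (mem_lv.2 hz) ⟨h4, fun w hw hzw => ?_⟩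
      rcases L.L2 w hw with rfl | rfl
      · exact hup2
      · exact absurd hzw h6
    · exact h5
  have huniq : ∀ z z' : P, lev z = a + 3 → z ≠ d3 → lev z' = a + 3 → z' ≠ d3 → z = z' := by
    intro z z' hz hzd hz' hzd'
    rcases dn_no_three H har (z := s2) (by rw [L.ls2]) hd3 hz hz' hds (key z hz hzd).1
      (key z' hz' hzd').1 with h5 | h5 | h5
    · exact absurd h5.symm hzd
    · exact absurd h5.symm hzd'
    · exact h5
  obtain ⟨s3, hs3, hs3d⟩ := StrB_exists h3 d3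
  have hall : ∀ z : P, lev z = a + 3 → z = d3 ∨ z = s3 := by
    intro z hz
    by_cases hzd : z = d3
    · exact Or.inl hzd
    · exact Or.inr (huniq z s3 hz hzd hs3 hs3d)
  refine ⟨StrB_bb2 hs3d.symm hd3 hs3 hall, d3, s3, ?_⟩
  exact { toLadA := L, ld3 := hd3, ls3 := hs3, ds3 := hs3d.symm, L3 := hall, d3d2 := hdd,
          d3s2 := hds, s3s2 := (key s3 hs3 hs3d).1, s3d2 := (key s3 hs3 hs3d).2 }

/-- Right side of the identity at level a+2. PROOF: the elements of level a are x and y. y has the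
two lower covers d1, s1, so dn (a+1) y = 2 and y is not in the filter. x is in the filter:
dn (a+1) x = 1 (d1 < x, not s1 < x, dn_one_iff), the only w of level a+1 below x is d1 and
dn (a+2) d1 = 2 (d2, s2 < d1, dn_two_iff). -/
theorem pup_a2 {a : ℕ} {x y d1 s1 d2 s2 : P} (L : LadA a x y d1 s1 d2 s2) :
    pup P (a + 2) = 1 := by
  classical
  unfold pup
  rw [Finset.card_eq_one]
  refine ⟨x, ?_⟩
  ext z
  simp only [mem_filter, mem_univ, true_and, mem_singleton]
  constructor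
  · rintro ⟨h3, h4, -⟩
    rcases L.L0 z (by omega) with h5 | h5
    · exact h5
    · exfalso
      subst h5
      have h6 := (dn_two_iff L.ds1 L.ld1 L.ls1 L.L1 z).2 ⟨L.d1y, L.s1y⟩
      have h7 : dn (a + 1) z = 1 := h4
      omega
  · rintro rfl
    refine ⟨by rw [L.lx], (dn_one_iff L.ds1 L.ld1 L.ls1 L.L1 z).2 (Or.inl ⟨L.d1x, L.s1x⟩), ?_⟩
    intro w hw hwz
    rcases L.L1 w (by omega) with rfl | rfl
    · exact (dn_two_iff L.ds2 L.ld2 L.ls2 L.L2 w).2 ⟨L.d2d1, L.s2d1⟩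
    · exact absurd hwz L.s1x

/-- Level a+4. PROOF. bb P (a+3) = 2 by LadB (elements d3, s3). exists_up2 (j = a+3): d4 with
d4 < d3, d4 < s3 and all other z of level a+4 have up (a+3) z = 1, so (up_one_iff) z is below
exactly one of d3, s3. The filter of pdn P (a+2) is the set of the z of level a+4 with
up (a+3) z = 1 all of whose upper covers have up (a+2) = 2: since up (a+2) d3 = 2 and
up (a+2) s3 = 1 these are the z ≠ d4 of level a+4 below d3 (not below s3). By hW and pup_a2 there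
is exactly one, s4. Every other z (≠ d4, s4) is below s3 and not below d3, and two different
such z would give three elements d4, z, z' of level a+4 below s3, against dn_no_three. -/
theorem ladC_exists (H : Gr P r) (h0 : bb P 0 = 1) {a : ℕ}
    {x y d1 s1 d2 s2 d3 s3 : P} (L : LadB a x y d1 s1 d2 s2 d3 s3) (hr : a + 4 ≤ r)
    (hW : W21 P (a + 2)) :
    ∃ d4 s4 : P, LadC a x y d1 s1 d2 s2 d3 s3 d4 s4 := by
  classical
  have b3 : bb P (a + 3) = 2 := StrB_bb2 L.ds3 L.ld3 L.ls3 L.L3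
  obtain ⟨d4, hd4, hd4u, hd4o⟩ := exists_up2 H h0 (j := a + 3) (by omega) b3
  obtain ⟨hdd, hds⟩ := (up_two_iff L.ds3 L.ld3 L.ls3 L.L3 d4).1 hd4u
  have hpdn : pdn P (a + 2) = 1 := by
    have h4 := pup_a2 L.toLadA
    unfold W21 at hW
    omega
  unfold pdn at hpdn
  obtain ⟨s4, hs4⟩ := Finset.card_eq_one.1 hpdn
  have hmem : ∀ z : P, (lev z = a + 4 ∧ up (a + 3) z = 1 ∧
      ∀ w : P, lev w = a + 3 → z < w → up (a + 2) w = 2) ↔ z = s4 := by
    intro z
    have h5 := Finset.ext_iff.1 hs4 z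
    rw [mem_filter, mem_lv, mem_singleton] at h5
    exact h5
  obtain ⟨hs4l, hs4u, hs4w⟩ := (hmem s4).2 rfl
  have hups3 : up (a + 2) s3 = 1 :=
    (up_one_iff L.ds2 L.ld2 L.ls2 L.L2 s3).2 (Or.inr ⟨L.s3s2, L.s3d2⟩)
  have hupd3 : up (a + 2) d3 = 2 :=
    (up_two_iff L.ds2 L.ld2 L.ls2 L.L2 d3).2 ⟨L.d3d2, L.d3s2⟩
  have hs4s3 : ¬ s4 < s3 := by
    intro h5
    have h6 := hs4w s3 L.ls3 h5
    omega
  have hs4d3 : s4 < d3 := by
    rcases (up_one_iff L.ds3 L.ld3 L.ls3 L.L3 s4).1 hs4u with h5 | h5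
    · exact h5.1
    · exact absurd h5.1 hs4s3
  have hne : d4 ≠ s4 := by
    rintro rfl
    exact hs4s3 hds
  have key : ∀ z : P, lev z = a + 4 → z ≠ d4 → z ≠ s4 → z < s3 ∧ ¬ z < d3 := by
    intro z hz hzd hzs
    have h4 := hd4o z hz hzd
    rcases (up_one_iff L.ds3 L.ld3 L.ls3 L.L3 z).1 h4 with ⟨h5, h6⟩ | h5
    · exfalso
      refine hzs ((hmem z).1 ⟨hz, h4, fun w hw hzw => ?_⟩)
      rcases L.L3 w hw with rfl | rfl
      · exact hupd3
      · exact absurd hzw h6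
    · exact h5
  have huniq : ∀ z z' : P, lev z = a + 4 → z ≠ d4 → z ≠ s4 → lev z' = a + 4 → z' ≠ d4 →
      z' ≠ s4 → z = z' := by
    intro z z' hz hzd hzs hz' hzd' hzs'
    rcases dn_no_three H hr (z := s3) (by rw [L.ls3]) hd4 hz hz' hds (key z hz hzd hzs).1
      (key z' hz' hzd' hzs').1 with h5 | h5 | h5
    · exact absurd h5.symm hzd
    · exact absurd h5.symm hzd'
    · exact h5
  refine ⟨d4, s4, ?_⟩
  exact { toLadB := L, ld4 := hd4, ls4 := hs4l, ds4 := hne, d4d3 := hdd, d4s3 := hds,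
          s4d3 := hs4d3, s4s3 := hs4s3, L4 := key, L4u := huniq }

theorem StrB_three {j : ℕ} {u v w : P} (h1 : u ≠ v) (h2 : u ≠ w) (h3 : v ≠ w) (hu : lev u = j)
    (hv : lev v = j) (hw : lev w = j) : 3 ≤ bb P j := by
  have h5 : ({u, v, w} : Finset P).card = 3 := by
    rw [Finset.card_eq_three]
    exact ⟨u, v, w, h1, h2, h3, rfl⟩
  have h6 : ({u, v, w} : Finset P) ⊆ lv P j := by
    intro t ht
    rw [mem_insert, mem_insert, mem_singleton] at ht
    rw [mem_lv]
    rcases ht with rfl | rfl | rfl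
    · exact hu
    · exact hv
    · exact hw
  have h7 := Finset.card_le_card h6
  unfold bb
  omega

/-- PROOF: immediate from the definition. -/
theorem ladC_two {a : ℕ} {x y d1 s1 d2 s2 d3 s3 d4 s4 : P}
    (L : LadC a x y d1 s1 d2 s2 d3 s3 d4 s4) (h : bb P (a + 4) = 2) (z : P)
    (hz : lev z = a + 4) : z = d4 ∨ z = s4 := by
  by_contra hcon
  push Not at hcon
  have h1 := StrB_three L.ds4 hcon.1.symm hcon.2.symm L.ld4 L.ls4 hz
  omega

/-- PROOF: level a+4 contains d4 ≠ s4, so bb P (a+4) ≥ 2; as it is not 2 there is a third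
element, which is below s3 and not below d3 by L4; by L4u it is the only one. -/
theorem ladC_three {a : ℕ} {x y d1 s1 d2 s2 d3 s3 d4 s4 : P}
    (L : LadC a x y d1 s1 d2 s2 d3 s3 d4 s4) (h : bb P (a + 4) ≠ 2) :
    bb P (a + 4) = 3 ∧ ∃ s' : P, lev s' = a + 4 ∧ s' ≠ d4 ∧ s' ≠ s4 ∧ s' < s3 ∧ ¬ s' < d3 ∧
      ∀ z : P, lev z = a + 4 → z = d4 ∨ z = s4 ∨ z = s' := by
  have h1 : ∃ s' : P, lev s' = a + 4 ∧ s' ≠ d4 ∧ s' ≠ s4 := by
    by_contra hcon
    push Not at hcon
    refine h (StrB_bb2 L.ds4 L.ld4 L.ls4 fun z hz => ?_)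
    by_cases h2 : z = d4
    · exact Or.inl h2
    · exact Or.inr (hcon z hz h2)
  obtain ⟨s', hs', hsd, hss⟩ := h1
  have hall : ∀ z : P, lev z = a + 4 → z = d4 ∨ z = s4 ∨ z = s' := by
    intro z hz
    by_cases h2 : z = d4
    · exact Or.inl h2
    · by_cases h3 : z = s4
      · exact Or.inr (Or.inl h3)
      · exact Or.inr (Or.inr (L.L4u z s' hz h2 h3 hs' hsd hss))
  refine ⟨le_antisymm ?_ (StrB_three L.ds4 hsd.symm hss.symm L.ld4 L.ls4 hs'), s', hs', hsd, hss,
    (L.L4 s' hs' hsd hss).1, (L.L4 s' hs' hsd hss).2, hall⟩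
  have h4 : lv P (a + 4) ⊆ {d4, s4, s'} := by
    intro z hz
    rw [mem_lv] at hz
    rw [mem_insert, mem_insert, mem_singleton]
    exact hall z hz
  exact (Finset.card_le_card h4).trans Finset.card_le_three

end Pool.Agent.GaussPoset
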