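import Pool.Agent.W_448lad_h84.Num

set_option autoImplicit false

namespace Pool.Agent.GaussPoset

open Finset Polynomial

universe u

lemma VeeB_ne_zero {n : ℕ} (hn : 0 < n) : (1 - X ^ n : ℤ[X]) ≠ 0 := by
  intro h
  have h1 := congrArg (fun f : ℤ[X] => f.eval 0) h
  simp [hn.ne'] at h1

lemma VeeB_prod {ι : Type*} [Fintype ι] [DecidableEq ι] {h : ι → ℕ} (hpos : ∀ i, 0 < h i)
    {b : ℕ → ℕ} (hc : ∀ j, (univ.filter (fun i => h i = j + 1)).card = b j) {a : ℕ}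
    (h1 : ∀ k, k < a → b k = 1) (h2 : ∀ k, a ≤ k → k < 2 * a → b k = 2) (F : ℕ → ℤ[X]) :
    ∏ i ∈ univ.filter (fun i => ¬ 2 * a < h i), F (h i) =
      (∏ k ∈ range a, F (k + 1)) * (∏ k ∈ range a, F (a + k + 1)) ^ 2 := by
  have e1 : ∏ i ∈ univ.filter (fun i => ¬ 2 * a < h i), F (h i) =
      ∏ k ∈ range (a + a), F (k + 1) ^ (b k) := by
    rw [← Finset.prod_fiberwise_of_maps_to (s := univ.filter (fun i => ¬ 2 * a < h i))
      (t := range (a + a)) (g := fun i => h i - 1)]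
    · refine Finset.prod_congr rfl fun k hk => ?_
      rw [mem_range] at hk
      have e2 : (univ.filter (fun i => ¬ 2 * a < h i)).filter (fun i => h i - 1 = k) =
          univ.filter (fun i => h i = k + 1) := by
        ext i
        have := hpos i
        simp only [mem_filter, mem_univ, true_and]
        omega
      rw [e2, ← hc k, ← Finset.prod_const]
      refine Finset.prod_congr rfl fun i hi => ?_
      rw [(mem_filter.1 hi).2]
    · intro i hi
      rw [mem_filter] at hi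
      have := hpos i
      rw [mem_range]
      omega
  rw [e1, Finset.prod_range_add, ← Finset.prod_pow]
  congr 1
  · refine Finset.prod_congr rfl fun k hk => ?_
    rw [h1 k (mem_range.1 hk), pow_one]
  · refine Finset.prod_congr rfl fun k hk => ?_
    have := mem_range.1 hk
    rw [h2 (a + k) (by omega) (by omega)]

variable {P : Type u} [Fintype P] [PartialOrder P] [DecidableEq P] {r : ℕ}

/-- PROOF. Let h be the numbers of `H.gauss`: the number of i with h i = k + 1 is bb P k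
(`window_main`, second part, h i - 1 = k). Split both products of
U P 1 * ∏ (1 - X^(h i)) = ∏ (1 - X^(1 + h i)) at h i ≤ 2 a:
∏_{h i ≤ 2a} (1 - X^(h i)) = ∏_{k<2a} (1 - X^(k+1))^(bb P k)
= ∏_{k<a} (1 - X^(k+1)) * (∏_{a≤k<2a} (1 - X^(k+1)))^2 and the same with X^(k+2) on the right.
Cancel the common factors ∏_{1≤k<a} (1 - X^(k+1)) and (∏_{a<k<2a} (1 - X^(k+1)))^2 and one of the
two factors (1 - X^(a+1)) (ℤ[X] is a domain): what remains is the statement. -/
theorem vee_prod (H : Gr P r) {a : ℕ} (ha : 1 ≤ a) (h1 : ∀ k, k < a → bb P k = 1)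
    (h2 : ∀ k, a ≤ k → k < 2 * a → bb P k = 2) :
    ∃ (n : ℕ) (h : Fin n → ℕ) (s : Finset (Fin n)), (∀ i ∈ s, 2 * a + 1 ≤ h i) ∧
      (∀ k, 2 * a ≤ k → (s.filter (fun i => h i = k + 1)).card = bb P k) ∧
      U P 1 * (1 - (X : ℤ[X])) * (1 - (X : ℤ[X]) ^ (a + 1)) * ∏ i ∈ s, (1 - (X : ℤ[X]) ^ (h i)) =
        (1 - (X : ℤ[X]) ^ (2 * a + 1)) ^ 2 * ∏ i ∈ s, (1 - (X : ℤ[X]) ^ (h i + 1)) := by
  obtain ⟨h, hpos, -, hc, hU⟩ := Num_heights H
  refine ⟨_, h, univ.filter (fun i => 2 * a < h i), ?_, ?_, ?_⟩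
  · intro i hi
    exact (mem_filter.1 hi).2
  · intro k hk
    rw [← hc k]
    congr 1
    ext i
    simp only [mem_filter, mem_univ, true_and]
    omega
  · have hU1 := hU 1
    rw [← Finset.prod_filter_mul_prod_filter_not univ (fun i => 2 * a < h i),
      ← Finset.prod_filter_mul_prod_filter_not univ (fun i => 2 * a < h i)
        (fun i => 1 - (X : ℤ[X]) ^ (1 + h i)),
      VeeB_prod hpos hc h1 h2 (fun m => 1 - (X : ℤ[X]) ^ m),
      VeeB_prod hpos hc h1 h2 (fun m => 1 - (X : ℤ[X]) ^ (1 + m))] at hU1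
    have hs : ∏ i ∈ univ.filter (fun i => 2 * a < h i), (1 - (X : ℤ[X]) ^ (1 + h i)) =
        ∏ i ∈ univ.filter (fun i => 2 * a < h i), (1 - (X : ℤ[X]) ^ (h i + 1)) :=
      Finset.prod_congr rfl fun i _ => by rw [add_comm]
    rw [hs] at hU1
    have tA : (∏ k ∈ range a, (1 - (X : ℤ[X]) ^ (k + 1))) * (1 - (X : ℤ[X]) ^ (a + 1)) =
        (∏ k ∈ range a, (1 - (X : ℤ[X]) ^ (1 + (k + 1)))) * (1 - X) := by
      have e1 := Finset.prod_range_succ (fun k => 1 - (X : ℤ[X]) ^ (k + 1)) a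
      have e2 := Finset.prod_range_succ' (fun k => 1 - (X : ℤ[X]) ^ (k + 1)) a
      rw [← e1, e2]
      congr 1
      · exact Finset.prod_congr rfl fun k _ => by rw [add_comm 1]
      · simp
    have tB : (∏ k ∈ range a, (1 - (X : ℤ[X]) ^ (a + k + 1))) * (1 - (X : ℤ[X]) ^ (2 * a + 1)) =
        (∏ k ∈ range a, (1 - (X : ℤ[X]) ^ (1 + (a + k + 1)))) * (1 - (X : ℤ[X]) ^ (a + 1)) := by
      have e1 := Finset.prod_range_succ (fun k => 1 - (X : ℤ[X]) ^ (a + k + 1)) a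
      have e2 := Finset.prod_range_succ' (fun k => 1 - (X : ℤ[X]) ^ (a + k + 1)) a
      rw [two_mul, ← e1, e2]
      congr 1
      exact Finset.prod_congr rfl fun k _ => by rw [show a + (k + 1) + 1 = 1 + (a + k + 1) by ring]
    have nA : (∏ k ∈ range a, (1 - (X : ℤ[X]) ^ (k + 1))) ≠ 0 :=
      Finset.prod_ne_zero_iff.2 fun k _ => VeeB_ne_zero (Nat.succ_pos k)
    have nB : (∏ k ∈ range a, (1 - (X : ℤ[X]) ^ (a + k + 1))) ≠ 0 :=
      Finset.prod_ne_zero_iff.2 fun k _ => VeeB_ne_zero (Nat.succ_pos _)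
    have ny : (1 - (X : ℤ[X]) ^ (a + 1)) ≠ 0 := VeeB_ne_zero (Nat.succ_pos _)
    generalize (∏ k ∈ range a, (1 - (X : ℤ[X]) ^ (k + 1))) = A1 at *
    generalize (∏ k ∈ range a, (1 - (X : ℤ[X]) ^ (a + k + 1))) = A2 at *
    generalize (∏ k ∈ range a, (1 - (X : ℤ[X]) ^ (1 + (k + 1)))) = B1 at *
    generalize (∏ k ∈ range a, (1 - (X : ℤ[X]) ^ (1 + (a + k + 1)))) = B2 at *
    generalize ∏ i ∈ univ.filter (fun i => 2 * a < h i), (1 - (X : ℤ[X]) ^ (h i)) = S1 at *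
    generalize ∏ i ∈ univ.filter (fun i => 2 * a < h i), (1 - (X : ℤ[X]) ^ (h i + 1)) = S2 at *
    generalize (1 - (X : ℤ[X]) ^ (a + 1)) = y at *
    generalize (1 - (X : ℤ[X]) ^ (2 * a + 1)) = z at *
    generalize (1 - (X : ℤ[X])) = x at *
    have hne : A1 * A2 ^ 2 * y ≠ 0 := mul_ne_zero (mul_ne_zero nA (pow_ne_zero 2 nB)) ny
    apply mul_left_cancel₀ hne
    have h3 : (A2 * z) ^ 2 = (B2 * y) ^ 2 := by rw [tB]
    linear_combination x * y ^ 2 * hU1 - S2 * (A2 * z) ^ 2 * tA + S2 * B1 * x * (h3 * (-1))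

end Pool.Agent.GaussPoset
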