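import Pool.Agent.W_448lad_h84.VeeA
import Pool.Agent.W_448lad_h84.VeeB

set_option autoImplicit false

namespace Pool.Agent.GaussPoset

open Finset Polynomial

universe u

variable {P : Type u} [Fintype P] [PartialOrder P] [DecidableEq P] {r : ℕ}

/-- PROOF. Let V = U P 1 (1 - X)(1 - X^(a+1)); by coeff_U_one its coefficient of X^K (K ≥ a + 2)
is the left side. From vee_prod: modulo X^(2a+1) all products over s are 1, so V = 1 + X^(2a+1) R
(V A = B with A = 1 mod X^(2a+1), B = 1 mod X^(2a+1), hence V = 1 mod X^(2a+1)). By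
prod_first_order (c = 2a+1 for h and for h + 1), modulo X^(4a+2):
V (1 - ∑_{i∈s} X^(h i)) = (1 - 2 X^(2a+1)) (1 - ∑_{i∈s} X^(h i + 1)), so
V = 1 - 2 X^(2a+1) + ∑_{i∈s} X^(h i) - ∑_{i∈s} X^(h i + 1) (the products of two terms of order
≥ 2a+1 are 0). The coefficient of X^K in ∑_{i∈s} X^(h i) is bb P (K-1) for K ≥ 2a+1 and 0 for
K ≤ 2a; in ∑ X^(h i + 1) it is bb P (K-2) for K ≥ 2a+2 and 0 otherwise. For K = 2a+1 use
bb P (2a-1) = 2 = bb P (K-2). -/
theorem vee (H : Gr P r) {a : ℕ} (ha : 1 ≤ a) (h1 : ∀ k, k < a → bb P k = 1)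
    (h2 : ∀ k, a ≤ k → k < 2 * a → bb P k = 2) {K : ℕ} (hK : a + 2 ≤ K) (hK2 : K ≤ 4 * a + 1) :
    (ff P K : ℤ) - ff P (K - 1) - ff P (K - a - 1) + ff P (K - a - 2) =
      if 2 * a + 1 ≤ K then (bb P (K - 1) : ℤ) - bb P (K - 2) else 0 := by
  classical
  obtain ⟨n, h, s, hs, hc, hid⟩ := vee_prod H ha h1 h2
  -- the coefficient of the left side
  have hcoef : (U P 1 * (1 - (X : ℤ[X])) * (1 - (X : ℤ[X]) ^ (a + 1))).coeff K =
      (ff P K : ℤ) - ff P (K - 1) - ff P (K - a - 1) + ff P (K - a - 2) := by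
    have e1 : U P 1 * (1 - (X : ℤ[X])) * (1 - (X : ℤ[X]) ^ (a + 1)) =
        U P 1 - X ^ 1 * U P 1 - X ^ (a + 1) * U P 1 + X ^ (a + 2) * U P 1 := by ring
    rw [e1, coeff_add, coeff_sub, coeff_sub, coeff_X_pow_mul', coeff_X_pow_mul', coeff_X_pow_mul',
      if_pos (by omega), if_pos (by omega), if_pos (by omega), coeff_U_one, coeff_U_one,
      coeff_U_one, coeff_U_one, show K - (a + 1) = K - a - 1 by omega,
      show K - (a + 2) = K - a - 2 by omega]
  set V : ℤ[X] := U P 1 * (1 - (X : ℤ[X])) * (1 - (X : ℤ[X]) ^ (a + 1)) with hV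
  obtain ⟨R1, hR1⟩ := prod_first_order s h (c := 2 * a + 1) hs
  obtain ⟨R2, hR2⟩ := prod_first_order s (fun i => h i + 1) (c := 2 * a + 1)
    (fun i hi => (hs i hi).trans (Nat.le_succ _))
  set S1 : ℤ[X] := ∏ i ∈ s, (1 - (X : ℤ[X]) ^ (h i)) with hS1
  set S2 : ℤ[X] := ∏ i ∈ s, (1 - (X : ℤ[X]) ^ (h i + 1)) with hS2
  obtain ⟨W1, hW1⟩ : (X : ℤ[X]) ^ (2 * a + 1) ∣ ∑ i ∈ s, (X : ℤ[X]) ^ (h i) :=
    Finset.dvd_sum fun i hi => pow_dvd_pow _ (hs i hi)
  obtain ⟨W2, hW2⟩ : (X : ℤ[X]) ^ (2 * a + 1) ∣ ∑ i ∈ s, (X : ℤ[X]) ^ (h i + 1) :=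
    Finset.dvd_sum fun i hi => pow_dvd_pow _ ((hs i hi).trans (Nat.le_succ _))
  have hT : (X : ℤ[X]) ^ (2 * (2 * a + 1)) ∣ V -
      (1 - 2 * X ^ (2 * a + 1) + ∑ i ∈ s, (X : ℤ[X]) ^ (h i) -
        ∑ i ∈ s, (X : ℤ[X]) ^ (h i + 1)) := by
    refine Polynomial.prime_X.pow_dvd_of_dvd_mul_right (b := S1) _ ?_ ?_
    · rw [X_dvd_iff]
      intro h0
      have e1 : S1.coeff 0 = 1 := by
        rw [hS1, coeff_zero_prod]
        refine Finset.prod_eq_one fun i hi => ?_
        have := hs i hi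
        rw [coeff_sub, coeff_one_zero, coeff_X_pow, if_neg (by omega), sub_zero]
      rw [e1] at h0
      exact one_ne_zero h0
    · rw [sub_mul, hid]
      have e2 : (X : ℤ[X]) ^ (2 * (2 * a + 1)) = X ^ (2 * a + 1) * X ^ (2 * a + 1) := by
        rw [two_mul, pow_add]
      rw [hW1, hW2, e2]
      rw [hW1, e2] at hR1
      rw [hW2, e2] at hR2
      generalize (X : ℤ[X]) ^ (2 * a + 1) = Y at *
      have e3 : S1 = 1 - Y * W1 + Y * Y * R1 := by linear_combination hR1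
      have e4 : S2 = 1 - Y * W2 + Y * Y * R2 := by linear_combination hR2
      rw [e3, e4]
      exact ⟨(1 - Y) ^ 2 * R2 - (1 - 2 * Y + Y * W1 - Y * W2) * R1 + 1 - Y * W2 + 2 * W2 -
        2 * W1 + W1 * W1 - W1 * W2, by ring⟩
  obtain ⟨Q, hQ⟩ := hT
  have hQc := congrArg (fun f : ℤ[X] => f.coeff K) hQ
  rw [coeff_X_pow_mul', if_neg (by omega), coeff_sub, sub_eq_zero, hcoef, coeff_sub, coeff_add,
    coeff_sub, Polynomial.finsetSum_coeff, Polynomial.finsetSum_coeff] at hQc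
  simp only [coeff_X_pow] at hQc
  rw [coeff_one, if_neg (by omega : ¬ K = 0), Finset.sum_boole, Finset.sum_boole] at hQc
  have h2X : ((2 : ℤ[X]) * X ^ (2 * a + 1)).coeff K = if K = 2 * a + 1 then 2 else 0 := by
    rw [show (2 : ℤ[X]) = C 2 from rfl, coeff_C_mul, coeff_X_pow]
    split_ifs <;> simp
  rw [h2X] at hQc
  have c1 : (s.filter (fun i => K = h i)).card = if 2 * a + 1 ≤ K then bb P (K - 1) else 0 := by
    split_ifs with hk
    · rw [← hc (K - 1) (by omega)]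
      congr 1
      ext i
      simp only [mem_filter]
      constructor
      · rintro ⟨x1, x2⟩
        exact ⟨x1, by omega⟩
      · rintro ⟨x1, x2⟩
        exact ⟨x1, by omega⟩
    · rw [Finset.card_eq_zero, Finset.filter_eq_empty_iff]
      intro i hi
      have := hs i hi
      omega
  have c2 : (s.filter (fun i => K = h i + 1)).card =
      if 2 * a + 2 ≤ K then bb P (K - 2) else 0 := by
    split_ifs with hk
    · rw [← hc (K - 2) (by omega)]
      congr 1
      ext i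
      simp only [mem_filter]
      constructor
      · rintro ⟨x1, x2⟩
        exact ⟨x1, by omega⟩
      · rintro ⟨x1, x2⟩
        exact ⟨x1, by omega⟩
    · rw [Finset.card_eq_zero, Finset.filter_eq_empty_iff]
      intro i hi
      have := hs i hi
      omega
  rw [c1, c2] at hQc
  rw [hQc]
  by_cases hk : 2 * a + 1 ≤ K
  · by_cases hk2 : K = 2 * a + 1
    · rw [if_pos hk, if_pos hk, if_pos hk2, if_neg (by omega)]
      have e5 : bb P (K - 2) = 2 := h2 (K - 2) (by omega) (by omega)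
      rw [e5]
      push_cast
      ring
    · rw [if_pos hk, if_pos hk, if_neg hk2, if_pos (by omega)]
      ring
  · rw [if_neg hk, if_neg hk, if_neg (by omega), if_neg (by omega)]
    simp

end Pool.Agent.GaussPoset
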