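import Pool.Agent.W_448lad_h84.Num
import Pool.Agent.W_448lad_h84.Vee
import Pool.Agent.W_448lad_h84.StrB
import Pool.Agent.W_448lad_h84.FilB

set_option autoImplicit false

namespace Pool.Agent.GaussPoset

open Finset Polynomial

universe u

variable {P : Type u} [Fintype P] [PartialOrder P] [DecidableEq P] {r : ℕ}

/-- The numerical end of the argument for r ≥ 4 a. PROOF. N2: b_k = 2 for a ≤ k < 2a. Structure:
ladA_exists, ladB_exists, ladC_exists. a ≥ 5: vee with K = a+5 contradicts ff_lad and ff_le.
a = 4: vee with K = 9: bb P 8 = 3; K = 10 with ff_six_three: bb P 9 = 2; bb_le gives r = 16.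
a = 3: vee with K = 8: bb P 7 = 2; K = 9 with ff_six_two: bb P 8 = 1, against bb_le. -/
theorem ladder_big (H : Gr P r) {a : ℕ} (ha : 3 ≤ a) (h1 : ∀ k, k < a → bb P k = 1)
    (h2 : bb P a = 2) (hr : 4 * a ≤ r)
    (hW : ∀ i, 2 ≤ i → i + 2 ≤ r → bb P i = 2 → W21 P i) (k : ℕ) : bb P k ≤ 3 := by
  have h0 : bb P 0 = 1 := h1 0 (by omega)
  have hN : ∀ k, a ≤ k → k < 2 * a → bb P k = 2 := by
    intro k hk hk2
    have e1 := bb_le H (k := a) (i := k) (by omega) hk (by omega)
    have e2 := bb_le_add H (k := k) (i := a - 1) (by omega) (by omega)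
    have e3 := h1 (a - 1) (by omega)
    have e4 := h1 (k - 1 - (a - 1)) (by omega)
    omega
  obtain ⟨x, y, d1, s1, d2, s2, LA⟩ := ladA_exists H (a := a) (by omega) h1
    (fun k hk hk2 => hN k hk (by omega)) (hW a (by omega) (by omega) h2)
  obtain ⟨hb3, d3, s3, LB⟩ := ladB_exists H (by omega) h1 LA
    (by
      have := bb_le H (k := a) (i := a + 3) (by omega) (by omega) (by omega)
      omega)
    (hW (a + 1) (by omega) (by omega) (hN _ (by omega) (by omega)))
  obtain ⟨d4, s4, LC⟩ := ladC_exists H h0 LB (by omega)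
    (hW (a + 2) (by omega) (by omega) (hN _ (by omega) (by omega)))
  obtain ⟨f1, f2, f4, f5⟩ := ff_lad H h1 LC
  rcases Nat.lt_or_ge 4 a with ha5 | ha5
  · exfalso
    have e1 := vee H (a := a) (by omega) h1 hN (K := a + 5) (by omega) (by omega)
    rw [if_neg (by omega)] at e1
    have e2 : ff P (a + 5 - a - 1) = 1 := ff_le h1 (by omega)
    have e3 : ff P (a + 5 - a - 2) = 1 := ff_le h1 (by omega)
    have e4 : ff P (a + 5 - 1) = 2 := f4
    rw [f5, e2, e3, e4] at e1
    norm_num at e1
  rcases Nat.lt_or_ge 3 a with ha4 | ha4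
  · have haa : a = 4 := by omega
    subst haa
    have e1 := vee H (a := 4) (by omega) h1 hN (K := 9) (by omega) (by omega)
    have f3' : ff P 3 = 1 := ff_le h1 (by omega)
    have f4' : ff P 4 = 1 := ff_le h1 (by omega)
    have b7 : bb P 7 = 2 := hN 7 (by omega) (by omega)
    norm_num at e1 f1 f2 f4 f5
    rw [f5, f4, f4', f3', b7] at e1
    have b8 : bb P 8 = 3 := by omega
    obtain ⟨-, s', q1, q2, q3, q4, q5, q6⟩ := ladC_three LC (by norm_num; omega)
    have f6 := ff_six_three H h1 LC q1 q2 q3 q4 q5 q6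
    have e2 := vee H (a := 4) (by omega) h1 hN (K := 10) (by omega) (by omega)
    norm_num at e2 f6
    rw [f6, f5, f4', f1, b8] at e2
    have b9 : bb P 9 = 2 := by omega
    have hr16 : r = 16 := by
      by_contra hne
      have := bb_le H (k := 8) (i := 9) (by omega) (by omega) (by omega)
      omega
    subst hr16
    have hlow : ∀ k, k ≤ 8 → bb P k ≤ 3 := by
      intro k hk
      rcases Nat.lt_or_ge k 4 with h | h
      · have := h1 k h; omega
      · rcases Nat.lt_or_ge k 8 with h' | h'
        · have := hN k h (by omega); omega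
        · have : k = 8 := by omega
          subst this; omega
    rcases Nat.lt_or_ge 16 k with h | h
    · rw [bb_zero H h]; omega
    rcases Nat.lt_or_ge 8 k with h' | h'
    · rw [← bb_symm H h]
      exact hlow _ (by omega)
    · exact hlow _ h'
  · exfalso
    have haa : a = 3 := by omega
    subst haa
    have f3' : ff P 3 = 1 := ff_le h1 (by omega)
    have e1 := vee H (a := 3) (by omega) h1 hN (K := 8) (by omega) (by omega)
    norm_num at e1 f1 f2 f4 f5 hb3
    rw [f5, f4, f1, f3', hb3] at e1
    have b7 : bb P 7 = 2 := by omega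
    have f6 := ff_six_two H h1 LC (ladC_two LC (by norm_num; exact b7))
    have e2 := vee H (a := 3) (by omega) h1 hN (K := 9) (by omega) (by omega)
    norm_num at e2 f6
    rw [f6, f5, f2, f1, b7] at e2
    have b8 : bb P 8 = 1 := by omega
    have := bb_le H (k := 3) (i := 8) (by omega) (by omega) (by omega)
    omega

/-- LADDER THEOREM. -/
theorem ladder (H : Gr P r) (h0 : bb P 0 = 1) (h1 : bb P 1 = 1) (h2 : bb P 2 = 1)
    (hW : ∀ i, 2 ≤ i → i + 2 ≤ r → bb P i = 2 → W21 P i) (k : ℕ) : bb P k ≤ 3 := by
  classical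
  by_cases hall : ∀ k, k ≤ r → bb P k = 1
  · rcases Nat.lt_or_ge r k with h | h
    · rw [bb_zero H h]; omega
    · rw [hall k h]; omega
  push Not at hall
  set a := Nat.find hall with ha
  obtain ⟨har, hba⟩ : a ≤ r ∧ bb P a ≠ 1 := Nat.find_spec hall
  have hmin : ∀ k, k < a → bb P k = 1 := by
    intro k hk
    have := Nat.find_min hall hk
    push Not at this
    exact this (by omega)
  have ha3 : 3 ≤ a := by
    by_contra hcon
    have : a = 0 ∨ a = 1 ∨ a = 2 := by omega
    rcases this with h | h | h <;> rw [h] at hba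
    · exact hba h0
    · exact hba h1
    · exact hba h2
  have hb2 : bb P a = 2 := by
    have e1 := card_dn2 H (j := a - 1) (by omega)
    rw [show a - 1 + 1 = a by omega] at e1
    have e2 : ((lv P (a - 1)).filter (fun z => dn a z = 2)).card ≤ bb P (a - 1) :=
      Finset.card_filter_le _ _
    have e3 := hmin (a - 1) (by omega)
    omega
  have h2a : 2 * a ≤ r := by
    by_contra hcon
    have e1 := bb_symm H har
    have e2 := hmin (r - a) (by omega)
    omega
  rcases Nat.lt_or_ge r (4 * a) with hr | hr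
  · have hlow : ∀ k, 2 * k ≤ r → bb P k ≤ 3 := by
      intro k hk
      rcases Nat.lt_or_ge k a with h | h
      · have := hmin k h; omega
      · have e2 := bb_le_add H (k := k) (i := a - 1) (by omega) (by omega)
        have e3 := hmin (a - 1) (by omega)
        have e4 := hmin (k - 1 - (a - 1)) (by omega)
        omega
    rcases Nat.lt_or_ge r k with h | h
    · rw [bb_zero H h]; omega
    rcases Nat.lt_or_ge r (2 * k) with h' | h'
    · rw [← bb_symm H h]
      exact hlow _ (by omega)
    · exact hlow _ h'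
  · exact ladder_big H ha3 hmin hb2 hr hW k

end Pool.Agent.GaussPoset
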