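import Pool.Agent.W_448lad_h84.Cnt

set_option autoImplicit false

namespace Pool.Agent.GaussPoset

open Finset Polynomial

universe u

variable {P : Type u} [Fintype P] [PartialOrder P] [DecidableEq P] {r : ℕ}

/-- Counting upper sets in a model. PROOF: the map G ↦ C ∪ φ(G) is a bijection from the finsets G
of Fin m closed under `le` with |C| + |G| = K to the upper sets of P with K elements:
C ∪ φ(G) is an upper set (hCu, hQ), has |C| + |G| elements (hφ, hC); injective by hC, hφ;
surjective by h3: F = C ∪ φ(G) with G = {i | φ i ∈ F}, closed under le by hle. -/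
theorem count_model {m : ℕ} (φ : Fin m → P) (hφ : Function.Injective φ) (C : Finset P)
    (hC : ∀ i, φ i ∉ C) (hCu : UpS C) (le : Fin m → Fin m → Bool)
    (hle : ∀ i j, le i j = true → φ i ≤ φ j)
    (hQ : ∀ (i : Fin m) (w : P), φ i ≤ w → w ∈ C ∨ ∃ j, le i j = true ∧ w = φ j) {K : ℕ}
    (h3 : ∀ F : Finset P, UpS F → F.card = K → C ⊆ F ∧ ∀ z ∈ F, z ∈ C ∨ ∃ j, z = φ j) :
    ff P K = ((univ : Finset (Finset (Fin m))).filter (fun G =>
      (∀ i j, le i j = true → i ∈ G → j ∈ G) ∧ C.card + G.card = K)).card := by
  classical
  symm
  unfold ff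
  have hmem : ∀ (G : Finset (Fin m)) (i : Fin m), φ i ∈ C ∪ G.image φ ↔ i ∈ G := by
    intro G i
    rw [mem_union, mem_image]
    constructor
    · rintro (h | ⟨j, hj, h⟩)
      · exact absurd h (hC i)
      · rw [← hφ h]; exact hj
    · intro h
      exact Or.inr ⟨i, h, rfl⟩
  refine Finset.card_bij (fun G _ => C ∪ G.image φ) ?_ ?_ ?_
  · intro G hG
    rw [mem_filter] at hG
    obtain ⟨-, hG1, hG2⟩ := hG
    simp only [mem_filter, mem_univ, true_and]
    refine ⟨?_, ?_⟩
    · intro x y hxy hx
      rw [mem_union, mem_image] at hx
      rcases hx with hx | ⟨i, hi, rfl⟩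
      · rw [mem_union]; exact Or.inl (hCu x y hxy hx)
      · rcases hQ i y hxy with h | ⟨j, hj, rfl⟩
        · rw [mem_union]; exact Or.inl h
        · rw [hmem]
          exact hG1 i j hj hi
    · rw [card_union_of_disjoint, card_image_of_injective _ hφ]
      · exact hG2
      · rw [Finset.disjoint_left]
        intro z hz hz2
        rw [mem_image] at hz2
        obtain ⟨i, -, rfl⟩ := hz2
        exact hC i hz
  · intro G _ G' _ h
    ext i
    rw [← hmem G i, ← hmem G' i, h]
  · intro F hF
    simp only [mem_filter, mem_univ, true_and] at hF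
    obtain ⟨hF1, hF2⟩ := hF
    obtain ⟨hCF, hF3⟩ := h3 F hF1 hF2
    have hFeq : C ∪ ((univ : Finset (Fin m)).filter (fun i => φ i ∈ F)).image φ = F := by
      ext z
      rw [mem_union, mem_image]
      constructor
      · rintro (h | ⟨i, hi, rfl⟩)
        · exact hCF h
        · rw [mem_filter] at hi; exact hi.2
      · intro hz
        rcases hF3 z hz with h | ⟨j, rfl⟩
        · exact Or.inl h
        · exact Or.inr ⟨j, by rw [mem_filter]; exact ⟨mem_univ _, hz⟩, rfl⟩
    refine ⟨(univ : Finset (Fin m)).filter (fun i => φ i ∈ F), ?_, hFeq⟩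
    simp only [mem_filter, mem_univ, true_and]
    refine ⟨fun i j hij hi => hF1 _ _ (hle i j hij) hi, ?_⟩
    rw [← hF2]
    conv_rhs => rw [← hFeq]
    rw [card_union_of_disjoint, card_image_of_injective _ hφ]
    rw [Finset.disjoint_left]
    intro z hz hz2
    rw [mem_image] at hz2
    obtain ⟨i, -, rfl⟩ := hz2
    exact hC i hz

/-- PROOF: every z of level ≥ k has an element above it (≥) on every level below
(`exists_above'`); level k has only one element. -/
theorem chain_above {a : ℕ} (h1 : ∀ k, k < a → bb P k = 1) {c z : P} (hc : lev c < a)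
    (hz : lev c ≤ lev z) : z ≤ c := by
  obtain ⟨y, hy, hy2⟩ := exists_above' hz
  obtain ⟨c', hc', hall⟩ := lv_one (h1 _ hc)
  rw [hall y hy2, ← hall c rfl] at hy
  exact hy

/-- PROOF: the levels k < a have one element each (Finset.card_eq_sum_card_fiberwise or
induction on a). -/
theorem card_chain {a : ℕ} (h1 : ∀ k, k < a → bb P k = 1) :
    ((univ : Finset P).filter (fun z => lev z < a)).card = a := by
  induction a with
  | zero => simp
  | succ a ih =>
    have e1 : (univ : Finset P).filter (fun z => lev z < a + 1)
        = (univ : Finset P).filter (fun z => lev z < a) ∪ lv P a := by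
      ext z
      rw [mem_union, mem_filter, mem_filter, mem_lv]
      constructor
      · rintro ⟨-, h⟩
        rcases Nat.lt_or_ge (lev z) a with h' | h'
        · exact Or.inl ⟨mem_univ _, h'⟩
        · exact Or.inr (by omega)
      · rintro (⟨-, h⟩ | h)
        · exact ⟨mem_univ _, by omega⟩
        · exact ⟨mem_univ _, by omega⟩
    have e2 : bb P a = 1 := h1 a (by omega)
    unfold bb at e2
    rw [e1, card_union_of_disjoint, ih (fun k hk => h1 k (by omega)), e2]
    rw [Finset.disjoint_left]
    intro z hz hz2
    rw [mem_filter] at hz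
    rw [mem_lv] at hz2
    omega

/-- PROOF: if x is in C and x ≤ y then lev y ≤ lev x (`lev_anti`). -/
theorem upS_chain (a : ℕ) : UpS ((univ : Finset P).filter (fun z => lev z < a)) := by
  intro x y hxy hx
  rw [mem_filter] at hx ⊢
  exact ⟨mem_univ _, (lev_anti hxy).trans_lt hx.2⟩

/-- An upper set with more than a elements contains the chain C = {lev < a}; one which contains an
element of level ≥ a as well. PROOF: if F has an element z with lev z ≥ a then every c of level
< a is ≥ z (chain_above), so in F. If |F| > a = |C| then F is not contained in C, so it has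
such a z. -/
theorem chain_subset {a : ℕ} (h1 : ∀ k, k < a → bb P k = 1) {F : Finset P} (hF : UpS F)
    (hc : a < F.card) : ((univ : Finset P).filter (fun z => lev z < a)) ⊆ F := by
  have hex : ∃ z ∈ F, a ≤ lev z := by
    by_contra hcon
    push Not at hcon
    have : F ⊆ (univ : Finset P).filter (fun z => lev z < a) := by
      intro z hz
      rw [mem_filter]
      exact ⟨mem_univ _, hcon z hz⟩
    have h2 := Finset.card_le_card this
    rw [card_chain h1] at h2
    omega
  obtain ⟨z, hz, hz2⟩ := hex
  intro c hcc
  rw [mem_filter] at hcc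
  exact hF z c (chain_above h1 hcc.2 (by omega)) hz

/-- PROOF. The set {lev < K} is an upper set with K elements (card_chain with K in place of a,
upS_chain). Conversely let F be an upper set with K ≤ a elements. If F contained z with
lev z ≥ K then F would contain {lev < K} (chain_above with K in place of a) and z, so at least
K + 1 elements. So F is contained in {lev < K}, which has K elements, and they are equal. -/
theorem ff_le {a : ℕ} (h1 : ∀ k, k < a → bb P k = 1) {K : ℕ} (hK : K ≤ a) : ff P K = 1 := by
  classical
  have h1' : ∀ k, k < K → bb P k = 1 := fun k hk => h1 k (by omega)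
  unfold ff
  rw [Finset.card_eq_one]
  refine ⟨(univ : Finset P).filter (fun z => lev z < K), ?_⟩
  ext F
  simp only [mem_filter, mem_univ, true_and, mem_singleton]
  constructor
  · rintro ⟨hF, hc⟩
    have hsub : F ⊆ (univ : Finset P).filter (fun z => lev z < K) := by
      intro z hz
      rw [mem_filter]
      refine ⟨mem_univ _, ?_⟩
      by_contra hcon
      push Not at hcon
      have h2 : insert z ((univ : Finset P).filter (fun z => lev z < K)) ⊆ F := by
        intro c hcc
        rw [mem_insert] at hcc
        rcases hcc with rfl | hcc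
        · exact hz
        · rw [mem_filter] at hcc
          exact hF z c (chain_above h1' hcc.2 (by omega)) hz
      have h3 := Finset.card_le_card h2
      rw [card_insert_of_notMem, card_chain h1'] at h3
      · omega
      · rw [mem_filter]; push Not; intro _; exact hcon
    exact Finset.eq_of_subset_of_card_le hsub (by rw [card_chain h1', hc])
  · rintro rfl
    exact ⟨upS_chain K, card_chain h1'⟩

end Pool.Agent.GaussPoset
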