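import Pool.Agent.W_448lad_h84.Defs

set_option autoImplicit false

namespace Pool.Agent.GaussPoset

open Finset Polynomial

universe u

lemma Num_ne_zero {n : ℕ} (hn : 0 < n) : (1 - X ^ n : ℂ[X]) ≠ 0 := by
  intro h
  have h1 := congrArg (fun f : ℂ[X] => f.eval 0) h
  simp [hn.ne'] at h1

lemma Num_mult {d : ℕ} {ζ : ℂ} (hζ : IsPrimitiveRoot ζ d) {n : ℕ} (hn : 0 < n) :
    rootMultiplicity ζ (1 - X ^ n : ℂ[X]) = if d ∣ n then 1 else 0 := by
  classical
  have hne := Num_ne_zero hn
  have hsep : (1 - X ^ n : ℂ[X]).Separable := by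
    have h1 : (X ^ n - 1 : ℂ[X]).Separable :=
      Polynomial.X_pow_sub_one_separable_iff.2 (by exact_mod_cast hn.ne')
    exact h1.of_dvd ⟨-1, by ring⟩
  split_ifs with hd
  · refine le_antisymm (rootMultiplicity_le_one_of_separable hsep ζ) ?_
    rw [Nat.one_le_iff_ne_zero, ← pos_iff_ne_zero, rootMultiplicity_pos hne, IsRoot.def, eval_sub,
      eval_one, eval_pow, eval_X, (hζ.pow_eq_one_iff_dvd n).2 hd, sub_self]
  · rw [rootMultiplicity_eq_zero_iff]
    intro hr
    exfalso
    apply hd
    rw [IsRoot.def, eval_sub, eval_one, eval_pow, eval_X, sub_eq_zero] at hr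
    exact (hζ.pow_eq_one_iff_dvd n).1 hr.symm

lemma Num_mult_prod {d : ℕ} {ζ : ℂ} (hζ : IsPrimitiveRoot ζ d) {ι : Type*} (s : Finset ι)
    (k : ι → ℕ) (hk : ∀ i ∈ s, 0 < k i) :
    (∏ i ∈ s, (1 - X ^ (k i) : ℂ[X])) ≠ 0 ∧
    rootMultiplicity ζ (∏ i ∈ s, (1 - X ^ (k i) : ℂ[X])) = (s.filter (fun i => d ∣ k i)).card := by
  classical
  induction s using Finset.induction_on with
  | empty => simp
  | insert a s ha ih =>
    obtain ⟨ih1, ih2⟩ := ih (fun i hi => hk i (mem_insert_of_mem hi))
    have hka := hk a (mem_insert_self a s)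
    rw [Finset.prod_insert ha]
    have hne := mul_ne_zero (Num_ne_zero hka) ih1
    refine ⟨hne, ?_⟩
    rw [rootMultiplicity_mul hne, ih2, Num_mult hζ hka, Finset.filter_insert]
    split_ifs with h
    · rw [card_insert_of_notMem (fun h' => ha (mem_filter.1 h').1)]
      omega
    · omega

/-- Multiplicity of a primitive root of unity.
PROOF. Map the identity to ℂ[X] (`Polynomial.map (Int.castRingHom ℂ)`). Let ζ be a primitive
`d`-th root of unity in ℂ (`Complex.isPrimitiveRoot_exp`). For n ≥ 1 the root multiplicity of ζ in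
1 - X^n is 1 if d ∣ n (the polynomial X^n - 1 is separable and ζ^n = 1) and 0 otherwise
(ζ^n ≠ 1). All polynomials are nonzero (for h' i = M + h i ≥ 1), so the root multiplicity of ζ in
∏ (1 - X^(h i)) is the number of i with d ∣ h i, that of the right side is the number of i with
d ∣ M + h i, and the multiplicity of a product is the sum (`Polynomial.rootMultiplicity_mul`,
`Polynomial.rootMultiplicity` of a `Finset.prod` by induction, or via `Polynomial.roots`). -/
theorem card_dvd_le {n : ℕ} {h : Fin n → ℕ} (hpos : ∀ i, 0 < h i) {M d : ℕ} (hd : 0 < d)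
    {V : ℤ[X]} (hU : V * ∏ i, (1 - (X : ℤ[X]) ^ (h i)) = ∏ i, (1 - (X : ℤ[X]) ^ (M + h i))) :
    ((univ : Finset (Fin n)).filter (fun i => d ∣ h i)).card ≤
      ((univ : Finset (Fin n)).filter (fun i => d ∣ M + h i)).card := by
  have hζ := Complex.isPrimitiveRoot_exp d hd.ne'
  obtain ⟨a1, a2⟩ := Num_mult_prod hζ (univ : Finset (Fin n)) h (fun i _ => hpos i)
  obtain ⟨b1, b2⟩ := Num_mult_prod hζ (univ : Finset (Fin n)) (fun i => M + h i)
    (fun i _ => Nat.add_pos_right M (hpos i))
  have h1 := congrArg (Polynomial.map (Int.castRingHom ℂ)) hU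
  rw [Polynomial.map_mul, Polynomial.map_prod, Polynomial.map_prod] at h1
  simp only [Polynomial.map_sub, Polynomial.map_one, Polynomial.map_pow, Polynomial.map_X] at h1
  rw [← b2, ← a2, ← h1, rootMultiplicity_mul (by rw [h1]; exact b1)]
  exact Nat.le_add_left _ _

variable {P : Type u} [Fintype P] [PartialOrder P] [DecidableEq P] {r : ℕ}

/-- There is no level below `r`. PROOF: lev x ≤ r (`Gr.lev_le`). -/
theorem bb_zero (H : Gr P r) {k : ℕ} (hk : r < k) : bb P k = 0 := by
  unfold bb
  rw [Finset.card_eq_zero, Finset.eq_empty_iff_forall_notMem]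
  intro x hx
  rw [mem_lv] at hx
  have := H.lev_le x
  omega

/-- Symmetry of the level sizes. PROOF: `card_lv_zero H.gauss k` says that the level k of the dual
has as many elements as level k; the elements of level k of the dual are the x with colev x = k
(`colev` is defined by this), and colev x = r - lev x by `H.hr`. -/
theorem bb_symm (H : Gr P r) {k : ℕ} (hk : k ≤ r) : bb P (r - k) = bb P k := by
  unfold bb
  rw [← card_lv_zero H.gauss k]
  refine Finset.card_bij (fun x _ => OrderDual.toDual x) ?_ ?_ ?_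
  · intro x hx
    rw [mem_lv] at hx ⊢
    have h1 := H.hr x
    have h2 : colev x = k := by omega
    exact h2
  · intro x _ y _ hxy
    exact OrderDual.toDual.injective hxy
  · intro y hy
    rw [mem_lv] at hy
    have h1 := H.hr (OrderDual.ofDual y)
    have h2 : colev (OrderDual.ofDual y) = k := hy
    exact ⟨OrderDual.ofDual y, by rw [mem_lv]; omega, rfl⟩

lemma Num_heights (H : Gr P r) : ∃ h : Fin (Fintype.card P) → ℕ, (∀ i, 0 < h i) ∧
    (∀ i, h i ≤ r + 1) ∧
    (∀ j, (univ.filter (fun i => h i = j + 1)).card = bb P j) ∧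
    ∀ m : ℕ, U P m * ∏ i, (1 - (X : ℤ[X]) ^ (h i)) = ∏ i, (1 - (X : ℤ[X]) ^ (m + h i)) := by
  obtain ⟨h, hpos, hU⟩ := H.gauss
  have hc : ∀ j, (univ.filter (fun i => h i = j + 1)).card = bb P j := by
    intro j
    have h1 := (window_main (P := P) j hpos hU).2.1
    unfold bb
    rw [← h1]
    congr 1
    ext i
    have := hpos i
    simp only [mem_filter, mem_univ, true_and]
    omega
  refine ⟨h, hpos, ?_, hc, hU⟩
  intro i
  by_contra hcon
  push Not at hcon
  have h1 := hc (h i - 1)
  rw [bb_zero H (by omega), Finset.card_eq_zero] at h1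
  have h2 : i ∈ univ.filter (fun i' => h i' = h i - 1 + 1) := by
    rw [mem_filter]
    exact ⟨mem_univ _, by omega⟩
  rw [h1] at h2
  exact absurd h2 (notMem_empty _)

lemma Num_main (H : Gr P r) {k i : ℕ} (h2 : 2 * k ≤ r) (h3 : i + k ≤ r) :
    bb P k ≤ bb P i + bb P (i + (r + 1 - k)) := by
  classical
  obtain ⟨h, hpos, hle, hc, hU⟩ := Num_heights H
  have h4 := card_dvd_le hpos (M := r + 1 - k - (i + 1)) (d := r + 1 - k) (by omega)
    (hU (r + 1 - k - (i + 1)))
  have h5 : univ.filter (fun i' => (r + 1 - k) ∣ h i') = univ.filter (fun i' => h i' = r - k + 1) := by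
    ext x
    have a1 := hpos x
    have a2 := hle x
    simp only [mem_filter, mem_univ, true_and]
    constructor
    · rintro ⟨c, hc⟩
      have c1 : c ≠ 0 := by
        rintro rfl
        omega
      have c2 : c < 2 := by
        by_contra hcon
        push Not at hcon
        have : (r + 1 - k) * 2 ≤ (r + 1 - k) * c := Nat.mul_le_mul_left _ hcon
        omega
      have c3 : c = 1 := by omega
      subst c3
      omega
    · intro hx
      exact ⟨1, by omega⟩
  have h6 : univ.filter (fun i' => (r + 1 - k) ∣ (r + 1 - k - (i + 1)) + h i') ⊆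
      univ.filter (fun i' => h i' = i + 1) ∪
      univ.filter (fun i' => h i' = i + (r + 1 - k) + 1) := by
    intro x
    have a1 := hpos x
    have a2 := hle x
    simp only [mem_filter, mem_univ, true_and, mem_union]
    rintro ⟨c, hc⟩
    have c1 : c ≠ 0 := by
      rintro rfl
      omega
    have c2 : c < 3 := by
      by_contra hcon
      push Not at hcon
      have : (r + 1 - k) * 3 ≤ (r + 1 - k) * c := Nat.mul_le_mul_left _ hcon
      omega
    have c3 : c = 1 ∨ c = 2 := by omega
    rcases c3 with rfl | rfl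
    · left
      omega
    · right
      omega
  rw [h5, hc, bb_symm H (by omega)] at h4
  refine h4.trans ((Finset.card_le_card h6).trans ((Finset.card_union_le _ _).trans ?_))
  rw [hc, hc]

/-- PROOF. Let h be the numbers of `H.gauss`. By `window_main` the number of i with h i = j + 1 is
bb P j, so 1 ≤ h i ≤ r + 1 by `bb_zero`. Put d = r + 1 - k ≥ 1. If i = r - k use `bb_symm`.
Otherwise i + 1 < d; apply `card_dvd_le` with M = d - (i + 1), V = U P M. Left side: d ∣ h and
h ≤ r + 1 < 2 d (since 2 k ≤ r) iff h = d, so it is bb P (d - 1) = bb P (r - k) = bb P k. Right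
side: d ∣ d - (i+1) + h iff h = i + 1 or h = i + 1 + d (h ≤ r + 1 < 2 d < 2 d + i + 1), and
i + 1 + d > r + 1 because i ≥ k; so it is bb P i. -/
theorem bb_le (H : Gr P r) {k i : ℕ} (h2 : 2 * k ≤ r) (h3 : k ≤ i) (h4 : i + k ≤ r) :
    bb P k ≤ bb P i := by
  have h5 := Num_main H h2 h4
  rw [bb_zero H (k := i + (r + 1 - k)) (by omega), add_zero] at h5
  exact h5

/-- PROOF. As for `bb_le`, with i < k (so i + 1 < d = r + 1 - k); now the h with
d ∣ d - (i+1) + h are h = i + 1 and h = i + 1 + d, and the number of these is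
bb P i + bb P (i + d) with i + d = r - (k - 1 - i), so bb P (i + d) = bb P (k - 1 - i) by
`bb_symm`. -/
theorem bb_le_add (H : Gr P r) {k i : ℕ} (h2 : 2 * k ≤ r) (h3 : i < k) :
    bb P k ≤ bb P i + bb P (k - 1 - i) := by
  have h5 := Num_main H h2 (i := i) (by omega)
  have h6 : i + (r + 1 - k) = r - (k - 1 - i) := by omega
  rw [h6, bb_symm H (by omega)] at h5
  exact h5

end Pool.Agent.GaussPoset
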