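import Pool.Agent.W_448lad_h84.Cnt

set_option autoImplicit false

namespace Pool.Agent.GaussPoset

open Finset Polynomial

universe u

variable {P : Type u} [Fintype P] [PartialOrder P] [DecidableEq P] {r : ℕ}

theorem StrA_le (H : Gr P r) {a : ℕ} (h : bb P a ≠ 0) : a ≤ r := by
  obtain ⟨x, hx⟩ := Finset.card_ne_zero.1 h
  rw [mem_lv] at hx
  rw [← hx]
  exact H.lev_le x

theorem StrA_dn (H : Gr P r) {a : ℕ} (ha : 1 ≤ a) (h1 : ∀ k, k < a → bb P k = 1)
    (h2 : bb P a = 2) : ∀ c : P, lev c + 1 = a → dn a c = 2 := by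
  obtain ⟨b, rfl⟩ : ∃ b, a = b + 1 := ⟨a - 1, by omega⟩
  have har : b + 1 ≤ r := StrA_le H (by omega)
  obtain ⟨D, hD, hD2, -⟩ := exists_dn2 H (h1 0 (by omega)) har h2
  obtain ⟨c', hc', hc'u⟩ := lv_one (h1 b (by omega))
  intro c hc
  have h3 : c = c' := hc'u c (by omega)
  have h4 : D = c' := hc'u D hD
  rw [h3, ← h4]
  exact hD2

theorem StrA_other {j : ℕ} (h : bb P j = 2) {d : P} (hd : lev d = j) :
    ∃ s : P, d ≠ s ∧ lev s = j ∧ ∀ z : P, lev z = j → z = d ∨ z = s := by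
  obtain ⟨u, v, huv, hu, hv, hall⟩ := lv_two h
  rcases hall d hd with rfl | rfl
  · exact ⟨v, huv, hv, hall⟩
  · exact ⟨u, huv.symm, hu, fun z hz => (hall z hz).symm⟩

/-- Right side of the identity at level a. PROOF. Let c', c be the only elements of levels a-2,
a-1 (`lv_one`). The filter defining pup P a is {c'}: lev c' + 2 = a; dn (a-1) c' = 1 (dn ≥ 1 by
`dn_pos`, and level a-1 has one element); the only w with lev w + 1 = a is c, and dn a c = 2 by
`exists_dn2` (level a-1 has only the element c; or card_dn2). a ≤ r because bb P a ≠ 0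
(elements have level ≤ r, `Gr.lev_le`). -/
theorem pup_a (H : Gr P r) {a : ℕ} (ha : 2 ≤ a) (h1 : ∀ k, k < a → bb P k = 1)
    (h2 : bb P a = 2) : pup P a = 1 := by
  classical
  have har : a ≤ r := StrA_le H (by omega)
  obtain ⟨c', hc', hc'u⟩ := lv_one (h1 (a - 2) (by omega))
  have hdn : dn (a - 1) c' = 1 := by
    apply le_antisymm
    · refine (dn_le (a - 1) c').trans ?_
      have h3 := h1 (a - 1) (by omega)
      unfold bb at h3
      omega
    · exact dn_pos H (by omega) (by omega)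
  unfold pup
  rw [Finset.card_eq_one]
  refine ⟨c', ?_⟩
  ext x
  simp only [mem_filter, mem_univ, true_and, mem_singleton]
  constructor
  · rintro ⟨h3, -, -⟩
    exact hc'u x (by omega)
  · rintro rfl
    exact ⟨by omega, hdn, fun w hw _ => StrA_dn H (by omega) h1 h2 w hw⟩

/-- Right side of the identity at level a+1. PROOF: an element x of the filter has lev x = a - 1 and
dn a x = 1, but the only element c of level a - 1 has dn a c = 2 (card_dn2 with bb P a = 2,
bb P 0 = 1). -/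
theorem pup_a1 (H : Gr P r) {a : ℕ} (ha : 1 ≤ a) (h1 : ∀ k, k < a → bb P k = 1)
    (h2 : bb P a = 2) : pup P (a + 1) = 0 := by
  classical
  unfold pup
  rw [Finset.card_eq_zero, Finset.filter_eq_empty_iff]
  rintro x - ⟨h3, h4, -⟩
  have h5 := StrA_dn H ha h1 h2 x (by omega)
  rw [Nat.add_sub_cancel] at h4
  omega

/-- Levels a, a+1, a+2. PROOF. lv_two: L_a = {u, v}. exists_up2 (j = a): d1 with up a d1 = 2, so
d1 < u, v (up_two_iff); lv_two for a+1: one more element s1, up a s1 = 1: s1 is below exactly one of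
u, v (up_one_iff); call it y and the other one x. exists_up2 (j = a+1): d2 < d1, s1; s2 the other
element of level a+2, up (a+1) s2 = 1: s2 is below exactly one of d1, s1. By pup_a and W21 P a the
filter of pdn P a has an element z: lev z = a+2, up (a+1) z = 1, so z = s2 (z ≠ d2), and every
w of level a+1 above s2 has up a w = 2. If s2 < s1 this would give up a s1 = 2, a contradiction;
so s2 < d1 and not s2 < s1. -/
theorem ladA_exists (H : Gr P r) {a : ℕ} (ha : 2 ≤ a) (h1 : ∀ k, k < a → bb P k = 1)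
    (h2 : ∀ k, a ≤ k → k ≤ a + 2 → bb P k = 2) (hW : W21 P a) :
    ∃ x y d1 s1 d2 s2 : P, LadA a x y d1 s1 d2 s2 := by
  classical
  have h0 : bb P 0 = 1 := h1 0 (by omega)
  have b0 := h2 a (by omega) (by omega)
  have b1 := h2 (a + 1) (by omega) (by omega)
  have b2 := h2 (a + 2) (by omega) (by omega)
  have r1 : a + 1 ≤ r := StrA_le H (by omega)
  obtain ⟨u, v, huv, hu, hv, hL0⟩ := lv_two b0
  obtain ⟨d1, hd1, hd1u, hd1o⟩ := exists_up2 H h0 (j := a) (by omega) b0
  obtain ⟨hdu, hdv⟩ := (up_two_iff huv hu hv hL0 d1).1 hd1u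
  obtain ⟨s1, hds, hs1, hL1⟩ := StrA_other b1 hd1
  have hs1u := hd1o s1 hs1 hds.symm
  obtain ⟨x, y, hxy, hx, hy, hL0', hdx, hdy, hsy, hsx⟩ : ∃ x y : P, x ≠ y ∧ lev x = a ∧
      lev y = a ∧ (∀ z : P, lev z = a → z = x ∨ z = y) ∧ d1 < x ∧ d1 < y ∧ s1 < y ∧
      ¬ s1 < x := by
    rcases (up_one_iff huv hu hv hL0 s1).1 hs1u with ⟨h3, h4⟩ | ⟨h3, h4⟩
    · exact ⟨v, u, huv.symm, hv, hu, fun z hz => (hL0 z hz).symm, hdv, hdu, h3, h4⟩
    · exact ⟨u, v, huv, hu, hv, hL0, hdu, hdv, h3, h4⟩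
  obtain ⟨d2, hd2, hd2u, hd2o⟩ := exists_up2 H h0 (j := a + 1) (by omega) b1
  obtain ⟨hd2d, hd2s⟩ := (up_two_iff hds hd1 hs1 hL1 d2).1 hd2u
  obtain ⟨s2, hds2, hs2, hL2⟩ := StrA_other b2 (d := d2) hd2
  have hs2u := hd2o s2 hs2 hds2.symm
  have hW' : pdn P a = 1 := by
    have h3 := pup_a H ha h1 b0
    unfold W21 at hW
    omega
  unfold pdn at hW'
  obtain ⟨z, hz⟩ := Finset.card_eq_one.1 hW'
  have hzm := Finset.mem_singleton_self z
  rw [← hz, mem_filter, mem_lv] at hzm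
  obtain ⟨hz1, hz2, hz3⟩ := hzm
  have hzs : z = s2 := by
    rcases hL2 z hz1 with rfl | h3
    · omega
    · exact h3
  rw [hzs] at hz3
  have hns : ¬ s2 < s1 := by
    intro h3
    have h4 := hz3 s1 hs1 h3
    omega
  have hs2d : s2 < d1 := by
    rcases (up_one_iff hds hd1 hs1 hL1 s2).1 hs2u with ⟨h3, -⟩ | ⟨h3, -⟩
    · exact h3
    · exact absurd h3 hns
  exact ⟨x, y, d1, s1, d2, s2,
    { lx := hx, ly := hy, ld1 := hd1, ls1 := hs1, ld2 := hd2, ls2 := hs2, xy := hxy, ds1 := hds,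
      ds2 := hds2, L0 := hL0', L1 := hL1, L2 := hL2, d1x := hdx, d1y := hdy, s1y := hsy,
      s1x := hsx, d2d1 := hd2d, d2s1 := hd2s, s2d1 := hs2d, s2s1 := hns }⟩

end Pool.Agent.GaussPoset
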