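import Pool.Agent.W_448lad_h84.Num

set_option autoImplicit false

namespace Pool.Agent.GaussPoset

open Finset Polynomial

universe u

/-- First order expansion of a product. PROOF: induction on s. Step: with
∏ = 1 - S + X^(2c) R: (1 - X^n)(1 - S + X^(2c) R) = 1 - S - X^n + X^n S + X^(2c)(...), and
X^n S = ∑ X^(n + n i) is divisible by X^(2c) because n, n i ≥ c. -/
theorem prod_first_order {ι : Type*} (s : Finset ι) (n : ι → ℕ) {c : ℕ}
    (hn : ∀ i ∈ s, c ≤ n i) :
    (X : ℤ[X]) ^ (2 * c) ∣ ∏ i ∈ s, (1 - (X : ℤ[X]) ^ (n i)) - (1 - ∑ i ∈ s, (X : ℤ[X]) ^ (n i)) := by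
  classical
  induction s using Finset.induction_on with
  | empty => simp
  | insert a s ha ih =>
    have ih' := ih (fun i hi => hn i (mem_insert_of_mem hi))
    have hna := hn a (mem_insert_self a s)
    rw [Finset.prod_insert ha, Finset.sum_insert ha]
    have h1 : (X : ℤ[X]) ^ (2 * c) ∣ X ^ (n a) * ∑ i ∈ s, (X : ℤ[X]) ^ (n i) := by
      rw [Finset.mul_sum]
      refine Finset.dvd_sum fun i hi => ?_
      rw [← pow_add]
      have := hn i (mem_insert_of_mem hi)
      exact pow_dvd_pow _ (by omega)
    have h2 := (ih'.mul_left (1 - (X : ℤ[X]) ^ (n a))).add h1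
    convert h2 using 1
    ring

variable {P : Type u} [Fintype P] [PartialOrder P] [DecidableEq P] {r : ℕ}

/-- PROOF: U P 1 is the sum over the monotone maps P → Fin 2 of X^(∑ σ x); σ ↦ {x | σ x = 1} is a
bijection from the monotone maps to the upper sets and ∑ σ x is the number of elements of this
set. -/
theorem coeff_U_one (K : ℕ) : (U P 1).coeff K = (ff P K : ℤ) := by
  classical
  unfold U ff
  rw [Polynomial.finsetSum_coeff]
  simp only [Polynomial.coeff_X_pow]
  rw [Finset.sum_boole, Finset.filter_filter]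
  congr 1
  have hs : ∀ σ : P → Fin 2, ∑ x, (σ x : ℕ) = (univ.filter (fun x => σ x = 1)).card := by
    intro σ
    rw [Finset.card_filter]
    refine Finset.sum_congr rfl fun x _ => ?_
    generalize σ x = t
    fin_cases t <;> rfl
  refine Finset.card_bij (fun σ _ => univ.filter (fun x => σ x = 1)) ?_ ?_ ?_
  · intro σ hσ
    rw [mem_filter] at hσ ⊢
    refine ⟨mem_univ _, ?_, ?_⟩
    · intro x y hxy hx
      rw [mem_filter] at hx ⊢
      refine ⟨mem_univ _, ?_⟩
      have h1 := hσ.2.1 hxy
      rw [hx.2] at h1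
      exact le_antisymm (Fin.le_last _) h1
    · rw [← hs]
      exact hσ.2.2.symm
  · intro σ _ τ _ h
    funext x
    have h1 : x ∈ univ.filter (fun x => σ x = 1) ↔ x ∈ univ.filter (fun x => τ x = 1) := by
      rw [h]
    simp only [mem_filter, mem_univ, true_and] at h1
    generalize hs' : σ x = s at *
    generalize ht' : τ x = t at *
    fin_cases s <;> fin_cases t <;> simp_all
  · intro F hF
    rw [mem_filter] at hF
    refine ⟨fun x => if x ∈ F then 1 else 0, ?_, ?_⟩
    · rw [mem_filter]
      refine ⟨@mem_univ _ (_) _, ?_, ?_⟩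
      · intro x y hxy
        show (if x ∈ F then (1 : Fin 2) else 0) ≤ if y ∈ F then 1 else 0
        by_cases hx : x ∈ F
        · rw [if_pos hx, if_pos (hF.2.1 x y hxy hx)]
        · rw [if_neg hx]
          exact Fin.zero_le _
      · rw [hs, ← hF.2.2]
        congr 1
        ext x
        simp
    · ext x
      simp

end Pool.Agent.GaussPoset
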